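import Pool.Agent.W_1b8d5d_wall.Byp
import Pool.Agent.W_1b8d5d_gd.Grid3

/-!
MP_1b8d5d_pr, bridge to unbounded weights in every dimension: the passage times of the truncated weights are the passage
times with probability close to one.
-/

set_option autoImplicit false

open MeasureTheory ProbabilityTheory Filter Topology

namespace Pool.Agent.W_1b8d5d_wall

open Pool.Agent.W_1b8d5d_gd Pool.Agent.W_1b8d5d_nc

variable {d : ℕ}

theorem dS_le_nm (x y : V d) : (dS x y : ℝ) ≤ nm (x - y) := by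
  rw [nm_eq_nat]
  have h : dS x y ≤ ∑ i, ((x - y) i).natAbs := by
    rw [dS_le]
    intro i
    exact Finset.single_le_sum (f := fun i => ((x - y) i).natAbs) (fun _ _ => Nat.zero_le _) (Finset.mem_univ i)
  exact_mod_cast h

variable [NeZero d]

theorem T_mono_nn {τ τ' : Env d} (hτ : NnD τ) (h : ∀ e, τ e ≤ τ' e) (x y : V d) : T τ x y ≤ T τ' x y := by
  apply le_ciInf
  intro w
  refine (hτ.T_le_cost w).trans ?_
  unfold cost
  exact List.sum_le_sum fun e _ => h e

/-- **The deterministic part.** -/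
theorem det {M h B t : ℝ} {K n : ℕ} {τ : Env d} {z : V d} (hτ : NnD τ) (hM : 0 ≤ M)
    (hg : GoodAt (fun e => τ e ≤ M) K B z) (hK : M * (4 * 10 ^ K + 1) ^ d < h)
    (hs : ∀ e : Edge d, (dS e.1 0 ≤ 3 ∨ dS e.1 z ≤ 3) → τ e ≤ h) (h1 : 1 ≤ h)
    (hn : ¬ cheapD (tr 1 τ) n t) (hnB : (n : ℝ) ≤ B) (ht : nm z * h ≤ t) (hzB : nm z ≤ B) :
    T τ 0 z = T (tr h τ) 0 z := by
  have hMh : M ≤ h := by
    have h2 : (1 : ℝ) ≤ (4 * 10 ^ K + 1) ^ d := by
      apply one_le_pow₀
      have : (0 : ℝ) < 10 ^ K := by positivity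
      linarith
    nlinarith
  have hnh : NnD (tr h τ) := fun e => le_min (hτ e) (by linarith)
  have hn1 : NnD (tr 1 τ) := fun e => le_min (hτ e) zero_le_one
  have hok : ∀ e : Edge d, h < τ e → (dS e.1 0 : ℝ) ≤ B → Ok M h τ 0 z e := fun e hb hB =>
    hg.ok hM hK hs hb hB
  apply le_antisymm
  · apply le_ciInf
    intro w
    by_cases hfar : ∀ e ∈ wedges w, h < τ e → (dS e.1 0 : ℝ) ≤ B
    · exact byp_all hτ hM hMh _ w le_rfl fun e he hb => hok e hb (hfar e he hb)
    · push Not at hfar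
      obtain ⟨e, he, -, hB⟩ := hfar
      -- the straight walk
      have e1 : T τ 0 z ≤ nm z * h := by
        obtain ⟨w0, hw0⟩ := exists_walk (0 : V d) z
        rw [sub_zero] at hw0
        have e2 : T τ 0 z ≤ cost (tr h τ) w0 := by
          refine byp_all hτ hM hMh _ w0 le_rfl fun f hf hb => hok f hb ?_
          have e3 := wedges_near w0 hf
          have e4 := dS_le_nm f.1 0
          rw [hw0] at e3
          linarith
        have e3 : cost (tr h τ) w0 ≤ w0.length * h := cost_le_of w0 fun f _ => tr_le' h τ f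
        rw [hw0] at e3
        linarith
      -- the far walk
      have e2 : t ≤ T (tr 1 τ) 0 e.1 := by
        refine hn1.lower hn ?_
        have := dS_le_nm e.1 0
        rw [sub_zero] at this
        linarith
      have e3 : T (tr 1 τ) 0 e.1 ≤ T (tr h τ) 0 e.1 := T_mono_nn hn1 (tr_mono h1 τ) _ _
      obtain ⟨q1, q2, hq⟩ := SimpleGraph.Walk.mem_support_iff_exists_append.1 (wedges_support w he).1
      have e4 : T (tr h τ) 0 e.1 ≤ cost (tr h τ) q1 := hnh.T_le_cost q1
      have e5 : cost (tr h τ) w = cost (tr h τ) q1 + cost (tr h τ) q2 := by rw [hq, cost_append]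
      have e6 := hnh.cost_nonneg q2
      linarith
  · exact T_mono_nn hnh (tr_le h τ) _ _

variable {ν : Measure ℝ} {Ω : Type} [MeasurableSpace Ω] {P : Measure Ω} {τ : Edge d → Ω → ℝ}

/-- The truncated model. -/
theorem fpp_tr (hF : FppD ν P τ) (h : ℝ) :
    FppD (ν.map fun x => min x h) P fun e ω => min (τ e ω) h := by
  have hm : Measurable fun x : ℝ => min x h := measurable_id.min measurable_const
  refine ⟨hF.prob, fun e => hm.comp (hF.meas e), ?_, fun e => ?_⟩
  · exact hF.indep.comp (fun _ x => min x h) fun _ => hm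
  · rw [← hF.law e, Measure.map_map hm (hF.meas e)]
    rfl

/-- **The truncation does not change the passage times with probability close to one**: every dimension `d ≥ 2`, every law
on `[0, ∞)` without atom at `0`, no moment assumption. -/
theorem bridge (hd : 2 ≤ d) (hF : FppD ν P τ) (hν : ν (Set.Iio 0) = 0) (hν0 : ν {0} = 0) {ε : ℝ} (hε : 0 < ε)
    (D : ℕ) :
    ∃ h₀ : ℝ, 1 ≤ h₀ ∧ ∀ h, h₀ ≤ h → ∀ z : V d, nm z ≤ h ^ D →
      P.real {ω | T (fun e => τ e ω) 0 z ≠ T (fun e => min (τ e ω) h) 0 z} ≤ ε := by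
  have hP := hF.prob
  have hνp : IsProbabilityMeasure ν := by
    rw [← hF.law (0, 0)]
    exact Measure.isProbabilityMeasure_map (hF.meas _).aemeasurable
  have hν1 : ν (Set.Iic 0) = 0 := by
    have h1 : Set.Iic (0 : ℝ) = Set.Iio 0 ∪ {0} := by
      ext x
      simp [le_iff_lt_or_eq]
    rw [h1, measure_union_null_iff]
    exact ⟨hν, hν0⟩
  -- the Peierls estimate for the weights truncated at one
  have hF1 := fpp_tr hF 1
  have hm : Measurable fun x : ℝ => min x 1 := measurable_id.min measurable_const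
  have hν'p : IsProbabilityMeasure (ν.map fun x => min x 1) := Measure.isProbabilityMeasure_map hm.aemeasurable
  have hν'1 : (ν.map fun x => min x 1) (Set.Iic 0) = 0 := by
    rw [Measure.map_apply hm measurableSet_Iic]
    have h1 : (fun x : ℝ => min x 1) ⁻¹' Set.Iic 0 = Set.Iic 0 := by
      ext x
      simp
    rw [h1]
    exact hν1
  have hν'0 : (ν.map fun x => min x 1) (Set.Iio 0) = 0 := measure_mono_null Set.Iio_subset_Iic_self hν'1
  have hlap := (lapD_tendsto hν'1).const_mul (2 * (d : ℝ) * Real.exp 1)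
  rw [mul_zero] at hlap
  obtain ⟨s, hs1, hs2⟩ := ((hlap.eventually_le_const (show (0 : ℝ) < 1 / 2 by norm_num)).and
    (eventually_ge_atTop 1)).exists
  have hspos : (0 : ℝ) < s := by exact_mod_cast hs2
  -- the walls
  obtain ⟨M, hM, hgood⟩ := good_event hd hF.meas hF.indep hF.law (show 0 < ε / 2 by linarith)
  obtain ⟨h₁, hh1, hgood⟩ := hgood (D + 2)
  obtain ⟨N, hN⟩ := exists_pow_lt_of_lt_one (show 0 < ε / 2 by linarith) (show (1 / 2 : ℝ) < 1 by norm_num)
  refine ⟨max (max h₁ 2) (max (N + 1) (2 * s)), hh1.trans ((le_max_left _ _).trans (le_max_left _ _)), ?_⟩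
  intro h hh z hz
  have g1 : h₁ ≤ h := ((le_max_left _ _).trans (le_max_left _ _)).trans hh
  have g2 : 2 ≤ h := ((le_max_right _ _).trans (le_max_left _ _)).trans hh
  have g3 : (N : ℝ) + 1 ≤ h := ((le_max_left _ _).trans (le_max_right _ _)).trans hh
  have g4 : 2 * (s : ℝ) ≤ h := ((le_max_right _ _).trans (le_max_right _ _)).trans hh
  have g0 : 1 ≤ h := by linarith
  obtain ⟨K, hK, hP1⟩ := hgood h g1
  have hpow : h ≤ h ^ (D + 2) := by
    calc h = h ^ 1 := (pow_one h).symm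
      _ ≤ h ^ (D + 2) := pow_le_pow_right₀ g0 (by omega)
  have hp1 : (1 : ℝ) ≤ h ^ (D + 1) := one_le_pow₀ g0
  set n : ℕ := ⌊h ^ (D + 2)⌋₊ with hn
  have n1 : (n : ℝ) ≤ h ^ (D + 2) := Nat.floor_le (by positivity)
  have n2 : h ^ (D + 2) - 1 < n := Nat.sub_one_lt_floor _
  have n3 : N ≤ n := Nat.le_floor (by linarith)
  have ht : nm z * h ≤ n / s := by
    rw [le_div_iff₀ hspos]
    have h2 : nm z * h * s ≤ h ^ D * h * s := by
      have := nm_nonneg z
      gcongr
    have h3 : h ^ D * h * s = h ^ (D + 1) * s := by ring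
    have h4 : h ^ (D + 1) * (2 * s) ≤ h ^ (D + 1) * h := mul_le_mul_of_nonneg_left g4 (by positivity)
    have h5 : h ^ (D + 1) * h = h ^ (D + 2) := by ring
    linarith
  have hzB : nm z ≤ h ^ (D + 2) := hz.trans (pow_le_pow_right₀ g0 (by omega))
  -- the Peierls event
  have hpei : P.real {ω | cheapD (tr 1 fun e => τ e ω) n (n / s)} ≤ ε / 2 := by
    have h2 := hF1.cheap_le hν'0 hspos n
    refine le_trans h2 ?_
    have h3 : (0 : ℝ) ≤ 2 * d * (Real.exp 1 * lapD (ν.map fun x => min x 1) s) := by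
      have : 0 ≤ lapD (ν.map fun x => min x 1) s := integral_nonneg fun x => (Real.exp_pos _).le
      positivity
    have h4 : 2 * d * (Real.exp 1 * lapD (ν.map fun x => min x 1) s) ≤ 1 / 2 := by
      rw [← mul_assoc]
      exact hs1
    calc (2 * d * (Real.exp 1 * lapD (ν.map fun x => min x 1) s)) ^ n ≤ (1 / 2) ^ n :=
          pow_le_pow_left₀ h3 h4 n
      _ ≤ (1 / 2) ^ N := pow_le_pow_of_le_one (by norm_num) (by norm_num) n3
      _ ≤ ε / 2 := hN.le
  have hnn : P.real {ω | ¬ NnD fun e => τ e ω} = 0 := by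
    have h2 : P {ω | ¬ NnD fun e => τ e ω} = 0 := ae_iff.1 (hF.ae_nn hν)
    rw [measureReal_def, h2]
    rfl
  have hsub : {ω | T (fun e => τ e ω) 0 z ≠ T (fun e => min (τ e ω) h) 0 z} ⊆
      ({ω | ¬ NnD fun e => τ e ω} ∪ {ω | ¬ (GoodAt (fun e => τ e ω ≤ M) K (h ^ (D + 2)) z ∧
          ∀ e : Ed d, (dS e.1 0 ≤ 3 ∨ dS e.1 z ≤ 3) → τ e ω ≤ h)}) ∪
        {ω | cheapD (tr 1 fun e => τ e ω) n (n / s)} := by
    intro ω hω
    by_contra hcon
    rw [Set.mem_union, Set.mem_union, not_or, not_or] at hcon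
    obtain ⟨⟨c1, c2⟩, c3⟩ := hcon
    simp only [Set.mem_ofPred_eq, not_not] at c1 c2
    exact hω (det c1 hM.le c2.1 hK c2.2 g0 c3 n1 ht hzB)
  refine (measureReal_mono hsub (measure_ne_top _ _)).trans ?_
  refine (measureReal_union_le _ _).trans ?_
  have e1 := measureReal_union_le (μ := P) {ω | ¬ NnD fun e => τ e ω}
    {ω | ¬ (GoodAt (fun e => τ e ω ≤ M) K (h ^ (D + 2)) z ∧
          ∀ e : Ed d, (dS e.1 0 ≤ 3 ∨ dS e.1 z ≤ 3) → τ e ω ≤ h)}
  have e2 := hP1 z
  linarith

/-- The same, for the event that the two passage times are equal. -/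
theorem bridge' (hd : 2 ≤ d) (hF : FppD ν P τ) (hν : ν (Set.Iio 0) = 0) (hν0 : ν {0} = 0) {ε : ℝ} (hε : 0 < ε)
    (D : ℕ) :
    ∃ h₀ : ℝ, 1 ≤ h₀ ∧ ∀ h, h₀ ≤ h → ∀ z : V d, nm z ≤ h ^ D →
      1 - ε ≤ P.real {ω | T (fun e => τ e ω) 0 z = T (fun e => min (τ e ω) h) 0 z} := by
  have hP := hF.prob
  obtain ⟨h₀, h1, h2⟩ := bridge hd hF hν hν0 hε D
  refine ⟨h₀, h1, fun h hh z hz => ?_⟩
  have h3 := h2 h hh z hz
  have h4 : (Set.univ : Set Ω) ⊆ {ω | T (fun e => τ e ω) 0 z = T (fun e => min (τ e ω) h) 0 z} ∪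
      {ω | T (fun e => τ e ω) 0 z ≠ T (fun e => min (τ e ω) h) 0 z} := by
    intro ω _
    by_cases hc : T (fun e => τ e ω) 0 z = T (fun e => min (τ e ω) h) 0 z
    · exact Or.inl hc
    · exact Or.inr hc
  have h5 := (measureReal_mono (μ := P) h4 (measure_ne_top _ _)).trans (measureReal_union_le _ _)
  have h6 : P.real (Set.univ : Set Ω) = 1 := by simp
  linarith

end Pool.Agent.W_1b8d5d_wall
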