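import Pool.Agent.W_1b8d5d_wall.Good
import Pool.Agent.W_1b8d5d_nc.NormD2

/-!
MP_1b8d5d_pr, bridge to unbounded weights in every dimension: the detour along a wall, and the deterministic part of the
comparison of the passage times with truncated weights.
-/

set_option autoImplicit false

open Relation

namespace Pool.Agent.W_1b8d5d_wall

open Pool.Agent.W_1b8d5d_gd Pool.Agent.W_1b8d5d_nc

variable {d : ℕ}

/-- The truncated weights. -/
noncomputable def tr (h : ℝ) (τ : Env d) : Env d := fun e => min (τ e) h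

theorem tr_le (h : ℝ) (τ : Env d) (e : Edge d) : tr h τ e ≤ τ e := min_le_left _ _

theorem tr_le' (h : ℝ) (τ : Env d) (e : Edge d) : tr h τ e ≤ h := min_le_right _ _

theorem tr_eq {h : ℝ} {τ : Env d} {e : Edge d} (he : τ e ≤ h) : tr h τ e = τ e := min_eq_left he

theorem tr_eq' {h : ℝ} {τ : Env d} {e : Edge d} (he : h < τ e) : tr h τ e = h := min_eq_right he.le

theorem tr_mono {h h' : ℝ} (hh : h ≤ h') (τ : Env d) (e : Edge d) : tr h τ e ≤ tr h' τ e :=
  min_le_min_left _ hh

/-- A walk of the grid is a chain of king moves. -/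
theorem av_of_walk {S : Set (V d)} {a b : V d} (w : (grid d).Walk a b) (h : ∀ s ∈ w.support, s ∉ S) :
    Av S a b := by
  induction w with
  | nil => exact ⟨h _ (by simp), ReflTransGen.refl⟩
  | @cons u v z hadj p ih =>
    have h1 := ih fun s hs => h s (by
      rw [SimpleGraph.Walk.support_cons]
      exact List.mem_cons_of_mem _ hs)
    have h2 : Nb u v := hadj
    exact ⟨h u (by simp), ReflTransGen.head ⟨h2.dS_le, h1.1⟩ h1.2⟩

/-- A walk from the centre to the outside meets the wall. -/
theorem walk_meet {G : (Fin d → ℤ) → (Fin d → ℤ) → Prop} {r : ℕ} {c y : V d} {S : Set (V d)} (hS : Wall G r c S)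
    (hy : 2 * r < dS y c) (w : (grid d).Walk c y) : ∃ s ∈ w.support, s ∈ S := by
  by_contra hc
  push Not at hc
  exact hS.sep c y (by rw [dS_self]; omega) hy (av_of_walk w hc)

variable [NeZero d]

theorem cost_cons (τ : Env d) {u v z : V d} (h : (grid d).Adj u v) (p : (grid d).Walk v z) :
    cost τ (SimpleGraph.Walk.cons h p) = τ (ke s(u, v)) + cost τ p := by
  unfold cost wedges
  rw [SimpleGraph.Walk.edges_cons, List.map_cons, List.map_cons, List.sum_cons]

theorem wedges_cons {u v z : V d} (h : (grid d).Adj u v) (p : (grid d).Walk v z) :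
    wedges (SimpleGraph.Walk.cons h p) = ke s(u, v) :: wedges p := by
  unfold wedges
  rw [SimpleGraph.Walk.edges_cons, List.map_cons]

/-- A walk through an edge. -/
theorem exists_split {x y : V d} (w : (grid d).Walk x y) {e : Edge d} (he : e ∈ wedges w) :
    ∃ (a b : V d) (h : (grid d).Adj a b) (p : (grid d).Walk x a) (q : (grid d).Walk b y),
      ke s(a, b) = e ∧ w = p.append (SimpleGraph.Walk.cons h q) := by
  induction w with
  | nil => simp [wedges] at he
  | @cons u v z hadj p ih =>
    rw [wedges_cons, List.mem_cons] at he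
    rcases he with he | he
    · exact ⟨u, v, hadj, SimpleGraph.Walk.nil, p, he.symm, rfl⟩
    · obtain ⟨a, b, h, p1, p2, h1, h2⟩ := ih he
      exact ⟨a, b, h, SimpleGraph.Walk.cons hadj p1, p2, h1, by rw [h2, SimpleGraph.Walk.cons_append]⟩

/-- The first vertex of the edge of two adjacent vertices. -/
theorem fst_ke {a b : V d} (h : (grid d).Adj a b) : (ke s(a, b)).1 = a ∨ (ke s(a, b)).1 = b := by
  obtain ⟨i, h | h⟩ := h
  · left
    rw [h, ke_dir]
  · right
    rw [h, ke_dir']

theorem ke_jn {e : Edge d} {a b : V d} (h : Jn e a b) : ∃ _ : (grid d).Adj a b, ke s(a, b) = e := by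
  rcases h with ⟨h1, h2⟩ | ⟨h1, h2⟩
  · refine ⟨⟨e.2, Or.inl (by rw [h2, h1]; rfl)⟩, ?_⟩
    rw [h2, h1]
    exact ke_dir e.1 e.2
  · refine ⟨⟨e.2, Or.inr (by rw [h2, h1]; rfl)⟩, ?_⟩
    rw [h2, h1]
    exact ke_dir' e.1 e.2

theorem chain_walk {σ : Edge d → Prop} {S : Set (V d)} {a b : V d}
    (h : ReflTransGen (fun u v => GR σ u v ∧ v ∈ S) a b) (ha : a ∈ S) :
    ∃ w : (grid d).Walk a b, (∀ s ∈ w.support, s ∈ S) ∧ ∀ e ∈ wedges w, σ e := by
  induction h using ReflTransGen.head_induction_on with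
  | refl =>
    refine ⟨SimpleGraph.Walk.nil, ?_, ?_⟩
    · intro s hs
      rw [SimpleGraph.Walk.support_nil, List.mem_singleton] at hs
      rw [hs]
      exact ha
    · intro e he
      simp [wedges] at he
  | head hac hcb ih =>
    obtain ⟨w, hw1, hw2⟩ := ih hac.2
    obtain ⟨⟨e, he, hs⟩, -⟩ := hac
    obtain ⟨hadj, hk⟩ := ke_jn he
    refine ⟨SimpleGraph.Walk.cons hadj w, ?_, ?_⟩
    · intro s hs
      rw [SimpleGraph.Walk.support_cons, List.mem_cons] at hs
      rcases hs with hs | hs
      · rw [hs]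
        exact ha
      · exact hw1 s hs
    · intro f hf
      rw [wedges_cons, List.mem_cons, hk] at hf
      rcases hf with hf | hf
      · rw [hf]
        exact hs
      · exact hw2 f hf

theorem cost_le_of {τ : Env d} {M : ℝ} {x y : V d} (w : (grid d).Walk x y) (h : ∀ e ∈ wedges w, τ e ≤ M) :
    cost τ w ≤ w.length * M := by
  unfold cost
  have h1 := List.sum_le_card_nsmul ((wedges w).map τ) M (by
    intro a ha
    obtain ⟨e, he, rfl⟩ := List.mem_map.1 ha
    exact h e he)
  rw [List.length_map, length_wedges, nsmul_eq_mul] at h1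
  exact h1

/-- **The detour along the wall.** -/
theorem wall_walk {σ : Edge d → Prop} {r : ℕ} {c : V d} {S : Set (V d)} (hS : Wall (GR σ) r c S) {a b : V d}
    (ha : a ∈ S) (hb : b ∈ S) :
    ∃ w : (grid d).Walk a b, (∀ e ∈ wedges w, σ e) ∧ w.length ≤ (4 * r + 1) ^ d := by
  classical
  obtain ⟨w, hw1, hw2⟩ := chain_walk (hS.conn a ha b hb) ha
  refine ⟨w.bypass, ?_, ?_⟩
  · intro e he
    apply hw2
    unfold wedges at he ⊢
    obtain ⟨s, hs, rfl⟩ := List.mem_map.1 he
    exact List.mem_map.2 ⟨s, w.edges_bypass_subset hs, rfl⟩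
  · have h1 := w.bypass_isPath.support_nodup
    have h2 : w.bypass.support.toFinset ⊆ bal c (2 * r) := by
      intro s hs
      rw [mem_bal]
      exact (hS.near s (hw1 s (w.support_bypass_subset (List.mem_toFinset.1 hs)))).2
    have h3 := Finset.card_le_card h2
    rw [List.toFinset_card_of_nodup h1, SimpleGraph.Walk.length_support, card_bal] at h3
    have h4 : 2 * (2 * r) + 1 = 4 * r + 1 := by ring
    rw [h4] at h3
    omega

/-- The number of the edges with large weights. -/
noncomputable def nbad (h : ℝ) (τ : Env d) {x y : V d} (w : (grid d).Walk x y) : ℕ :=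
  (wedges w).countP fun e => decide (h < τ e)

theorem nbad_append (h : ℝ) (τ : Env d) {x y z : V d} (w : (grid d).Walk x y) (w' : (grid d).Walk y z) :
    nbad h τ (w.append w') = nbad h τ w + nbad h τ w' := by
  unfold nbad
  rw [wedges_append, List.countP_append]

theorem nbad_cons (h : ℝ) (τ : Env d) {u v z : V d} (hadj : (grid d).Adj u v) (p : (grid d).Walk v z)
    (hb : h < τ (ke s(u, v))) : nbad h τ (SimpleGraph.Walk.cons hadj p) = nbad h τ p + 1 := by
  unfold nbad
  rw [wedges_cons, List.countP_cons, if_pos (by simpa using hb)]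

/-- The hypothesis on an edge with large weight: a wall around its first vertex with the end points outside. -/
def Ok (M h : ℝ) (τ : Env d) (x y : V d) (e : Edge d) : Prop :=
  ∃ (r : ℕ) (S : Set (V d)), 1 ≤ r ∧ M * (4 * r + 1) ^ d < h ∧ Wall (GR fun e => τ e ≤ M) r e.1 S ∧
    2 * r < dS x e.1 ∧ 2 * r < dS y e.1

/-- One replacement. -/
theorem byp_one {M h : ℝ} {τ : Env d} (hτ : NnD τ) (hM : 0 ≤ M) (hMh : M ≤ h) {x y : V d} (w : (grid d).Walk x y)
    {e : Edge d} (he : e ∈ wedges w) (hbe : h < τ e) (hok : Ok M h τ x y e) :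
    ∃ w' : (grid d).Walk x y, nbad h τ w' < nbad h τ w ∧ cost (tr h τ) w' ≤ cost (tr h τ) w ∧
      ∀ f ∈ wedges w', h < τ f → f ∈ wedges w := by
  obtain ⟨r, S, hr, hrh, hS, hx, hy⟩ := hok
  obtain ⟨a, b, hadj, p, q, hke, hw⟩ := exists_split w he
  have hh0 : 0 ≤ h := hM.trans hMh
  have hnn : NnD (tr h τ) := fun f => le_min (hτ f) hh0
  have hc0 : e.1 ∉ S := by
    intro hc
    have := (hS.near _ hc).1
    rw [dS_self] at this
    omega
  -- the two meeting points
  have hmeet : (∃ s ∈ p.support, s ∈ S) ∧ ∃ s ∈ q.support, s ∈ S := by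
    rcases fst_ke hadj with h1 | h1
    · rw [hke] at h1
      subst h1
      constructor
      · obtain ⟨s, hs1, hs2⟩ := walk_meet hS hx p.reverse
        rw [SimpleGraph.Walk.support_reverse, List.mem_reverse] at hs1
        exact ⟨s, hs1, hs2⟩
      · obtain ⟨s, hs1, hs2⟩ := walk_meet hS hy (SimpleGraph.Walk.cons hadj q)
        rw [SimpleGraph.Walk.support_cons, List.mem_cons] at hs1
        rcases hs1 with hs1 | hs1
        · rw [hs1] at hs2
          exact absurd hs2 hc0
        · exact ⟨s, hs1, hs2⟩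
    · rw [hke] at h1
      subst h1
      constructor
      · obtain ⟨s, hs1, hs2⟩ := walk_meet hS hx (SimpleGraph.Walk.cons hadj.symm p.reverse)
        rw [SimpleGraph.Walk.support_cons, List.mem_cons] at hs1
        rcases hs1 with hs1 | hs1
        · rw [hs1] at hs2
          exact absurd hs2 hc0
        · rw [SimpleGraph.Walk.support_reverse, List.mem_reverse] at hs1
          exact ⟨s, hs1, hs2⟩
      · exact walk_meet hS hy q
  obtain ⟨⟨s, hs, hsS⟩, ⟨t, ht, htS⟩⟩ := hmeet
  obtain ⟨p1, p2, hp⟩ := SimpleGraph.Walk.mem_support_iff_exists_append.1 hs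
  obtain ⟨q1, q2, hq⟩ := SimpleGraph.Walk.mem_support_iff_exists_append.1 ht
  obtain ⟨v, hv1, hv2⟩ := wall_walk hS hsS htS
  have hvc : cost (tr h τ) v < h := by
    have h1 : cost (tr h τ) v ≤ v.length * M := cost_le_of v fun f hf => (tr_le h τ f).trans (hv1 f hf)
    have h2 : (v.length : ℝ) ≤ (4 * r + 1) ^ d := by exact_mod_cast hv2
    have h3 : (v.length : ℝ) * M ≤ (4 * r + 1) ^ d * M := mul_le_mul_of_nonneg_right h2 hM
    linarith
  have hvb : nbad h τ v = 0 := by
    unfold nbad
    rw [List.countP_eq_zero]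
    intro f hf
    have := (hv1 f hf).trans hMh
    simpa using this
  have hbk : h < τ (ke s(a, b)) := by
    rw [hke]
    exact hbe
  refine ⟨(p1.append v).append q2, ?_, ?_, ?_⟩
  · rw [hw, nbad_append, nbad_append, nbad_append, nbad_cons h τ hadj q hbk, hvb, hp, hq, nbad_append,
      nbad_append]
    omega
  · rw [hw, cost_append, cost_append, cost_append, cost_cons, hp, hq, cost_append, cost_append,
      tr_eq' hbk]
    have h1 := hnn.cost_nonneg p2
    have h2 := hnn.cost_nonneg q1
    linarith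
  · intro f hf hbf
    rw [wedges_append, wedges_append, List.mem_append, List.mem_append] at hf
    rw [hw, wedges_append, wedges_cons, List.mem_append, List.mem_cons, hp, hq, wedges_append, wedges_append,
      List.mem_append, List.mem_append]
    rcases hf with (hf | hf) | hf
    · exact Or.inl (Or.inl hf)
    · exact absurd ((hv1 f hf).trans hMh) (not_le.2 hbf)
    · exact Or.inr (Or.inr (Or.inr hf))

/-- All the replacements. -/
theorem byp_all {M h : ℝ} {τ : Env d} (hτ : NnD τ) (hM : 0 ≤ M) (hMh : M ≤ h) {x y : V d} (n : ℕ) :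
    ∀ w : (grid d).Walk x y, nbad h τ w ≤ n → (∀ e ∈ wedges w, h < τ e → Ok M h τ x y e) →
      T τ x y ≤ cost (tr h τ) w := by
  induction n with
  | zero =>
    intro w hn _
    have h1 : ∀ e ∈ wedges w, τ e ≤ h := by
      have h2 : nbad h τ w = 0 := by omega
      unfold nbad at h2
      rw [List.countP_eq_zero] at h2
      intro e he
      simpa using h2 e he
    have h2 : cost (tr h τ) w = cost τ w := by
      unfold cost
      congr 1
      exact List.map_congr_left fun e he => tr_eq (h1 e he)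
    rw [h2]
    exact hτ.T_le_cost w
  | succ n ih =>
    intro w hn hok
    by_cases hb : ∃ e ∈ wedges w, h < τ e
    · obtain ⟨e, he, hbe⟩ := hb
      obtain ⟨w', h1, h2, h3⟩ := byp_one hτ hM hMh w he hbe (hok e he hbe)
      exact (ih w' (by omega) fun f hf hbf => hok f (h3 f hf hbf) hbf).trans h2
    · push Not at hb
      refine ih w ?_ hok
      have h2 : nbad h τ w = 0 := by
        unfold nbad
        rw [List.countP_eq_zero]
        intro e he
        simpa using hb e he
      omega

/-- The walls of the good event. -/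
theorem GoodAt.ok {M h B : ℝ} {K : ℕ} {τ : Env d} {z : V d} (hg : GoodAt (fun e => τ e ≤ M) K B z)
    (hM : 0 ≤ M) (hK : M * (4 * 10 ^ K + 1) ^ d < h)
    (hs : ∀ e : Edge d, (dS e.1 0 ≤ 3 ∨ dS e.1 z ≤ 3) → τ e ≤ h) {e : Edge d} (hbe : h < τ e)
    (hB : (dS e.1 0 : ℝ) ≤ B) : Ok M h τ 0 z e := by
  classical
  have h1 : 3 < dS e.1 0 ∧ 3 < dS e.1 z := by
    by_contra hc
    rw [not_and_or, not_lt, not_lt] at hc
    exact absurd (hs e hc) (not_le.2 hbe)
  have hex : ∃ k ≤ K, 2 * 10 ^ k < dS e.1 0 ∧ 2 * 10 ^ k < dS e.1 z ∧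
      (k = K ∨ (dS e.1 0 ≤ 10 ^ (k + 2) ∨ dS e.1 z ≤ 10 ^ (k + 2))) := by
    have key : ∀ n ≤ K, (2 * 10 ^ n < dS e.1 0 ∧ 2 * 10 ^ n < dS e.1 z) ∨
        ∃ k < K, 2 * 10 ^ k < dS e.1 0 ∧ 2 * 10 ^ k < dS e.1 z ∧
          (dS e.1 0 ≤ 10 ^ (k + 2) ∨ dS e.1 z ≤ 10 ^ (k + 2)) := by
      intro n
      induction n with
      | zero =>
        intro _
        left
        rw [pow_zero]
        omega
      | succ n ih =>
        intro hn
        rcases ih (by omega) with h2 | h2
        · by_cases h3 : 2 * 10 ^ (n + 1) < dS e.1 0 ∧ 2 * 10 ^ (n + 1) < dS e.1 z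
          · exact Or.inl h3
          · right
            refine ⟨n, by omega, h2.1, h2.2, ?_⟩
            rw [not_and_or, not_lt, not_lt] at h3
            have h4 : 2 * 10 ^ (n + 1) ≤ 10 ^ (n + 2) := by
              have : 0 < 10 ^ (n + 1) := by positivity
              rw [pow_succ 10 (n + 1)]
              omega
            rcases h3 with h3 | h3
            · exact Or.inl (h3.trans h4)
            · exact Or.inr (h3.trans h4)
        · exact Or.inr h2
    rcases key K le_rfl with h2 | ⟨k, hk, h2, h3, h4⟩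
    · exact ⟨K, le_rfl, h2.1, h2.2, Or.inl rfl⟩
    · exact ⟨k, hk.le, h2, h3, Or.inr h4⟩
  obtain ⟨k, hk, h2, h3, h4⟩ := hex
  have hw : HasWall (GR fun e => τ e ≤ M) (10 ^ k) e.1 := by
    rcases Nat.lt_or_ge k K with h5 | h5
    · refine hg.mid k h5 e.1 ?_
      rcases h4 with h4 | h4
      · omega
      · exact h4
    · have : k = K := by omega
      rw [this]
      exact hg.big e.1 hB
  obtain ⟨S, hS⟩ := hw
  refine ⟨10 ^ k, S, Nat.one_le_pow _ _ (by norm_num), ?_, hS, ?_, ?_⟩
  · refine lt_of_le_of_lt (mul_le_mul_of_nonneg_left ?_ hM) hK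
    apply pow_le_pow_left₀ (by positivity)
    have h5 : (10 : ℝ) ^ k ≤ 10 ^ K := pow_le_pow_right₀ (by norm_num) hk
    push_cast
    linarith
  · rw [dS_comm]
    exact h2
  · rw [dS_comm]
    exact h3

end Pool.Agent.W_1b8d5d_wall
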