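import Pool.Agent.W_1b8d5d_wall.WProb

/-!
MP_1b8d5d_pr, bridge to unbounded weights: the good event.
-/

set_option autoImplicit false

open MeasureTheory ProbabilityTheory Finset Filter Topology

namespace Pool.Agent.W_1b8d5d_wall

variable {d : ℕ}

/-- All the walls which are used: scale `10 ^ K` in the box of size `B`, the smaller scales near the two end points. -/
structure GoodAt (σ : Ed d → Prop) (K : ℕ) (B : ℝ) (z : Fin d → ℤ) : Prop where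
  big : ∀ c, (dS c 0 : ℝ) ≤ B → HasWall (GR σ) (10 ^ K) c
  mid : ∀ k < K, ∀ c, (dS c 0 ≤ 10 ^ (k + 2) ∨ dS c z ≤ 10 ^ (k + 2)) → HasWall (GR σ) (10 ^ k) c

private theorem Good_sq {K : ℕ} (hK : 4 ≤ K) : K * K ≤ 2 ^ K := by
  induction K, hK using Nat.le_induction with
  | base => norm_num
  | succ K hK ih =>
    rw [pow_succ]
    nlinarith

private theorem Good_tendsto {δ b : ℝ} (hδ0 : 0 < δ) (hδ : δ < 1) (hb : 0 ≤ b) :
    Tendsto (fun K : ℕ => b ^ K * δ ^ 2 ^ K) atTop (𝓝 0) := by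
  have h1 : Tendsto (fun K : ℕ => b * δ ^ K) atTop (𝓝 0) := by
    have := (tendsto_pow_atTop_nhds_zero_of_lt_one hδ0.le hδ).const_mul b
    simpa using this
  have h2 : ∀ᶠ K : ℕ in atTop, b * δ ^ K ≤ 1 / 2 := h1.eventually_le_const (by norm_num)
  have h3 : Tendsto (fun K : ℕ => ((1 : ℝ) / 2) ^ K) atTop (𝓝 0) :=
    tendsto_pow_atTop_nhds_zero_of_lt_one (by norm_num) (by norm_num)
  refine squeeze_zero' (Eventually.of_forall fun K => by positivity) ?_ h3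
  filter_upwards [h2, eventually_ge_atTop 4] with K hK1 hK2
  calc b ^ K * δ ^ 2 ^ K ≤ b ^ K * δ ^ (K * K) := by
        apply mul_le_mul_of_nonneg_left _ (by positivity)
        exact pow_le_pow_of_le_one hδ0.le hδ.le (Good_sq hK2)
    _ = (b * δ ^ K) ^ K := by rw [mul_pow, pow_mul]
    _ ≤ (1 / 2) ^ K := by
        apply pow_le_pow_left₀ (by positivity) hK1

private theorem Good_log {b : ℕ} (hb : 1 < b) : Tendsto (Nat.log b) atTop atTop := by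
  rw [tendsto_atTop_atTop]
  intro m
  refine ⟨b ^ m, fun a ha => ?_⟩
  calc m = Nat.log b (b ^ m) := (Nat.log_pow hb m).symm
    _ ≤ Nat.log b a := Nat.log_mono_right ha

private theorem Good_pow (B : ℝ) (K D d : ℕ) :
    (3 * (B ^ (K + 1)) ^ D) ^ d = 3 ^ d * B ^ (D * d) * (B ^ (D * d)) ^ K := by
  rw [mul_pow, ← pow_mul, ← pow_mul, ← pow_mul, mul_assoc (3 ^ d), ← pow_add]
  congr 2
  ring

private theorem Good_Ioi (ν : Measure ℝ) [IsProbabilityMeasure ν] :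
    Tendsto (fun h : ℝ => ν.real (Set.Ioi h)) atTop (𝓝 0) := by
  have h1 : Tendsto (fun h : ℝ => 1 - cdf ν h) atTop (𝓝 (1 - 1)) :=
    (tendsto_cdf_atTop ν).const_sub 1
  rw [sub_self] at h1
  refine h1.congr fun h => ?_
  have h2 : ν.real (Set.Iic h) + ν.real (Set.Ioi h) = 1 := by
    have h3 := measureReal_add_measureReal_compl (μ := ν) (s := Set.Iic h) measurableSet_Iic
    rw [Set.compl_Iic] at h3
    rw [h3]
    simp
  rw [cdf_eq_real]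
  linarith

section prob

variable {Ω : Type*} [MeasurableSpace Ω] {P : Measure Ω} {τ : Ed d → Ω → ℝ}

theorem P_not_big (hd : 2 ≤ d) [IsProbabilityMeasure P] (hτ : ∀ e, Measurable (τ e)) (hi : iIndepFun τ P)
    {Gs : Set ℝ} (hG : MeasurableSet Gs) {q δ B : ℝ} (hδ : 0 ≤ δ) (hq : ∀ e, P.real {ω | ¬ τ e ω ∈ Gs} ≤ q)
    (h0 : 3 ^ d * d * q ≤ δ / 361 ^ d) (K : ℕ) (hB : 0 ≤ B) :
    P.real {ω | ¬ ∀ c, (dS c 0 : ℝ) ≤ B → HasWall (GR fun e => τ e ω ∈ Gs) (10 ^ K) c} ≤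
      (2 * B + 1) ^ d * δ ^ 2 ^ K := by
  have h1 : {ω | ¬ ∀ c, (dS c 0 : ℝ) ≤ B → HasWall (GR fun e => τ e ω ∈ Gs) (10 ^ K) c} ⊆
      ⋃ c ∈ bal (0 : Fin d → ℤ) ⌊B⌋₊, {ω | NW (fun e => τ e ω ∈ Gs) (10 ^ K) c} := by
    intro ω hω
    rw [Set.mem_ofPred_eq] at hω
    push Not at hω
    obtain ⟨c, hc, hc2⟩ := hω
    simp only [Set.mem_iUnion]
    exact ⟨c, mem_bal.2 (Nat.le_floor hc), hc2⟩
  refine (measureReal_mono h1 (measure_ne_top _ _)).trans ?_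
  refine (measureReal_biUnion_finset_le _ _).trans ?_
  refine (sum_le_sum fun c _ => P_noWall hd hτ hi hG hδ hq h0 K c).trans ?_
  rw [sum_const, nsmul_eq_mul, card_bal]
  push_cast
  have h2 : δ ^ 2 ^ K / 361 ^ d ≤ δ ^ 2 ^ K := by
    apply div_le_self (by positivity)
    exact one_le_pow₀ (by norm_num)
  have h3 : (⌊B⌋₊ : ℝ) ≤ B := Nat.floor_le hB
  gcongr

theorem P_not_mid (hd : 2 ≤ d) [IsProbabilityMeasure P] (hτ : ∀ e, Measurable (τ e)) (hi : iIndepFun τ P)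
    {Gs : Set ℝ} (hG : MeasurableSet Gs) {q δ : ℝ} (hδ : 0 ≤ δ) (hδ1 : 10 ^ d * δ ≤ 1 / 2)
    (hq : ∀ e, P.real {ω | ¬ τ e ω ∈ Gs} ≤ q) (h0 : 3 ^ d * d * q ≤ δ / 361 ^ d) (K : ℕ) (z : Fin d → ℤ) :
    P.real {ω | ¬ ∀ k < K, ∀ c, (dS c 0 ≤ 10 ^ (k + 2) ∨ dS c z ≤ 10 ^ (k + 2)) →
      HasWall (GR fun e => τ e ω ∈ Gs) (10 ^ k) c} ≤ 4 * δ := by
  have h10 : (1 : ℝ) ≤ 10 ^ d := one_le_pow₀ (by norm_num)
  have hδ2 : δ ≤ 1 := by nlinarith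
  have h1 : {ω | ¬ ∀ k < K, ∀ c, (dS c 0 ≤ 10 ^ (k + 2) ∨ dS c z ≤ 10 ^ (k + 2)) →
      HasWall (GR fun e => τ e ω ∈ Gs) (10 ^ k) c} ⊆
      ⋃ k ∈ range K, ⋃ c ∈ bal (0 : Fin d → ℤ) (10 ^ (k + 2)) ∪ bal z (10 ^ (k + 2)),
        {ω | NW (fun e => τ e ω ∈ Gs) (10 ^ k) c} := by
    intro ω hω
    rw [Set.mem_ofPred_eq] at hω
    push Not at hω
    obtain ⟨k, hk, c, hc, hc2⟩ := hω
    simp only [Set.mem_iUnion]
    refine ⟨k, mem_range.2 hk, c, ?_, hc2⟩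
    rw [mem_union, mem_bal, mem_bal]
    exact hc
  refine (measureReal_mono h1 (measure_ne_top _ _)).trans ?_
  refine (measureReal_biUnion_finset_le _ _).trans ?_
  have h2 : ∀ k ∈ range K, P.real (⋃ c ∈ bal (0 : Fin d → ℤ) (10 ^ (k + 2)) ∪ bal z (10 ^ (k + 2)),
        {ω | NW (fun e => τ e ω ∈ Gs) (10 ^ k) c}) ≤ 2 * δ * (1 / 2) ^ k := by
    intro k _
    refine (measureReal_biUnion_finset_le _ _).trans ?_
    refine (sum_le_sum fun c _ => P_noWall hd hτ hi hG hδ hq h0 k c).trans ?_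
    rw [sum_const, nsmul_eq_mul]
    have h3 : ((bal (0 : Fin d → ℤ) (10 ^ (k + 2)) ∪ bal z (10 ^ (k + 2))).card : ℝ) ≤
        2 * (361 ^ d * (10 ^ d) ^ k) := by
      have h4 := card_union_le (bal (0 : Fin d → ℤ) (10 ^ (k + 2))) (bal z (10 ^ (k + 2)))
      rw [card_bal, card_bal] at h4
      have h5 : (2 * 10 ^ (k + 2) + 1 : ℕ) ≤ 361 * 10 ^ k := by
        have : 1 ≤ 10 ^ k := Nat.one_le_pow _ _ (by norm_num)
        rw [pow_add]
        omega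
      have h6 : (2 * 10 ^ (k + 2) + 1) ^ d ≤ (361 * 10 ^ k) ^ d := Nat.pow_le_pow_left h5 d
      have h7 : (bal (0 : Fin d → ℤ) (10 ^ (k + 2)) ∪ bal z (10 ^ (k + 2))).card ≤
          2 * (361 ^ d * (10 ^ d) ^ k) := by
        have e : (361 * 10 ^ k) ^ d = 361 ^ d * (10 ^ d) ^ k := by
          rw [mul_pow, ← pow_mul, ← pow_mul, mul_comm k d]
        omega
      exact_mod_cast h7
    have h4 : δ ^ 2 ^ k ≤ δ ^ (k + 1) := pow_le_pow_of_le_one hδ hδ2 (Nat.lt_two_pow_self)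
    calc ((bal (0 : Fin d → ℤ) (10 ^ (k + 2)) ∪ bal z (10 ^ (k + 2))).card : ℝ) *
          (δ ^ 2 ^ k / 361 ^ d) ≤ 2 * (361 ^ d * (10 ^ d) ^ k) * (δ ^ (k + 1) / 361 ^ d) := by
          apply mul_le_mul h3 _ (by positivity) (by positivity)
          exact div_le_div_of_nonneg_right h4 (by positivity)
      _ = 2 * δ * (10 ^ d * δ) ^ k := by
          rw [mul_pow, pow_succ]
          field_simp
      _ ≤ 2 * δ * (1 / 2) ^ k := by
          apply mul_le_mul_of_nonneg_left _ (by positivity)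
          exact pow_le_pow_left₀ (by positivity) hδ1 k
  refine (sum_le_sum h2).trans ?_
  rw [← mul_sum]
  have h3 : ∑ k ∈ range K, ((1 : ℝ) / 2) ^ k ≤ 2 := by
    rw [geom_sum_eq (by norm_num)]
    have : 0 ≤ ((1 : ℝ) / 2) ^ K := by positivity
    rw [div_le_iff_of_neg (by norm_num)]
    linarith
  nlinarith

theorem P_not_small [IsProbabilityMeasure P] {Ωq h : ℝ} (hΩ : 0 ≤ Ωq) (hq : ∀ e, P.real {ω | h < τ e ω} ≤ Ωq)
    (z : Fin d → ℤ) :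
    P.real {ω | ¬ ∀ e : Ed d, (dS e.1 0 ≤ 3 ∨ dS e.1 z ≤ 3) → τ e ω ≤ h} ≤ 2 * (7 ^ d * d) * Ωq := by
  have h1 : {ω | ¬ ∀ e : Ed d, (dS e.1 0 ≤ 3 ∨ dS e.1 z ≤ 3) → τ e ω ≤ h} ⊆
      ⋃ e ∈ shl (0 : Fin d → ℤ) 0 3 ∪ shl z 0 3, {ω | h < τ e ω} := by
    intro ω hω
    rw [Set.mem_ofPred_eq] at hω
    push Not at hω
    obtain ⟨e, he, he2⟩ := hω
    simp only [Set.mem_iUnion]
    refine ⟨e, ?_, he2⟩
    rw [mem_union, mem_shl, mem_shl]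
    rcases he with he | he
    · exact Or.inl ⟨Nat.zero_le _, he⟩
    · exact Or.inr ⟨Nat.zero_le _, he⟩
  refine (measureReal_mono h1 (measure_ne_top _ _)).trans ?_
  refine (measureReal_biUnion_finset_le _ _).trans ?_
  refine (sum_le_sum fun e _ => hq e).trans ?_
  rw [sum_const, nsmul_eq_mul]
  have hc : ∀ x : Fin d → ℤ, (shl x 0 3).card = 7 ^ d * d := by
    intro x
    unfold shl
    rw [card_product, card_univ, Fintype.card_fin, filter_true_of_mem fun z _ => Nat.zero_le _,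
      card_bal]
  have h2 : ((shl (0 : Fin d → ℤ) 0 3 ∪ shl z 0 3).card : ℝ) ≤ 2 * (7 ^ d * d) := by
    have h3 := card_union_le (shl (0 : Fin d → ℤ) 0 3) (shl z 0 3)
    rw [hc, hc] at h3
    have h4 : (shl (0 : Fin d → ℤ) 0 3 ∪ shl z 0 3).card ≤ 2 * (7 ^ d * d) := by omega
    exact_mod_cast h4
  exact mul_le_mul_of_nonneg_right h2 hΩ

private theorem Good_law {ν : Measure ℝ} (hτ : ∀ e, Measurable (τ e)) (hν : ∀ e, P.map (τ e) = ν)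
    (e : Ed d) (M : ℝ) : P.real {ω | M < τ e ω} = ν.real (Set.Ioi M) := by
  rw [← hν e, map_measureReal_apply (hτ e) measurableSet_Ioi]
  rfl

/-- The scale of the walls for the truncation level `h`. -/
private theorem Good_scale (hd : 2 ≤ d) {M : ℝ} (hM : 0 < M) {δ : ℝ} (hδ0 : 0 < δ) (hδ1 : δ < 1) (D : ℕ)
    {η : ℝ} (hη : 0 < η) : ∃ h₀ : ℝ, 1 ≤ h₀ ∧ ∀ h, h₀ ≤ h → ∃ K : ℕ,
      M * (4 * 10 ^ K + 1) ^ d < h ∧ (2 * h ^ D + 1) ^ d * δ ^ 2 ^ K ≤ η := by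
  have hb : (1 : ℕ) < 100 ^ d := Nat.one_lt_pow (by omega) (by norm_num)
  have hKtop : Tendsto (fun h : ℝ => Nat.log (100 ^ d) ⌊h⌋₊) atTop atTop :=
    (Good_log hb).comp tendsto_nat_floor_atTop
  have h1 : Tendsto (fun K : ℕ => 3 ^ d * ((100 : ℝ) ^ d) ^ (D * d) *
      ((((100 : ℝ) ^ d) ^ (D * d)) ^ K * δ ^ 2 ^ K)) atTop (𝓝 0) := by
    have := (Good_tendsto hδ0 hδ1 (b := ((100 : ℝ) ^ d) ^ (D * d)) (by positivity)).const_mul
      (3 ^ d * ((100 : ℝ) ^ d) ^ (D * d))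
    simpa using this
  have h2 := (h1.comp hKtop).eventually_le_const hη
  obtain ⟨h₀, hh⟩ := eventually_atTop.1 (h2.and ((eventually_gt_atTop ((M * 5 ^ d) ^ 2)).and
    (eventually_ge_atTop (1 : ℝ))))
  refine ⟨max h₀ 1, le_max_right _ _, fun h hh0 => ?_⟩
  obtain ⟨h3, h4, h5⟩ := hh h ((le_max_left _ _).trans hh0)
  have hfl : ⌊h⌋₊ ≠ 0 := by
    have : 1 ≤ ⌊h⌋₊ := Nat.le_floor (by exact_mod_cast h5)
    omega
  set K := Nat.log (100 ^ d) ⌊h⌋₊ with hK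
  have g1 : ((100 : ℝ) ^ d) ^ K ≤ h := by
    have e1 : (100 ^ d) ^ K ≤ ⌊h⌋₊ := Nat.pow_log_le_self _ hfl
    have e2 : (((100 ^ d) ^ K : ℕ) : ℝ) ≤ (⌊h⌋₊ : ℝ) := by exact_mod_cast e1
    push_cast at e2
    exact e2.trans (Nat.floor_le (by linarith))
  have g2 : h ≤ ((100 : ℝ) ^ d) ^ (K + 1) := by
    have e1 : ⌊h⌋₊ < (100 ^ d) ^ (K + 1) := Nat.lt_pow_succ_log_self hb _
    have e2 : ((⌊h⌋₊ + 1 : ℕ) : ℝ) ≤ (((100 ^ d) ^ (K + 1) : ℕ) : ℝ) := by exact_mod_cast e1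
    push_cast at e2
    exact (Nat.lt_floor_add_one h).le.trans e2
  refine ⟨K, ?_, ?_⟩
  · have e1 : ((10 : ℝ) ^ K) ^ d ≤ Real.sqrt h := by
      apply Real.le_sqrt_of_sq_le
      refine le_trans (le_of_eq ?_) g1
      rw [← pow_mul, ← pow_mul, ← pow_mul]
      rw [show (100 : ℝ) = 10 ^ 2 by norm_num, ← pow_mul]
      congr 1
      ring
    have e2 : (4 * (10 : ℝ) ^ K + 1) ^ d ≤ 5 ^ d * Real.sqrt h := by
      calc (4 * (10 : ℝ) ^ K + 1) ^ d ≤ (5 * 10 ^ K) ^ d := by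
            apply pow_le_pow_left₀ (by positivity)
            have : (1 : ℝ) ≤ 10 ^ K := one_le_pow₀ (by norm_num)
            linarith
        _ = 5 ^ d * (10 ^ K) ^ d := mul_pow _ _ _
        _ ≤ 5 ^ d * Real.sqrt h := mul_le_mul_of_nonneg_left e1 (by positivity)
    have e3 : M * 5 ^ d < Real.sqrt h := Real.lt_sqrt_of_sq_lt h4
    have e4 : 0 < Real.sqrt h := lt_trans (by positivity) e3
    calc M * (4 * (10 : ℝ) ^ K + 1) ^ d ≤ M * (5 ^ d * Real.sqrt h) :=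
          mul_le_mul_of_nonneg_left e2 hM.le
      _ = M * 5 ^ d * Real.sqrt h := by ring
      _ < Real.sqrt h * Real.sqrt h := mul_lt_mul_of_pos_right e3 e4
      _ = h := Real.mul_self_sqrt (by linarith)
  · refine le_trans ?_ h3
    show _ ≤ 3 ^ d * ((100 : ℝ) ^ d) ^ (D * d) * ((((100 : ℝ) ^ d) ^ (D * d)) ^ K * δ ^ 2 ^ K)
    have e1 : 1 ≤ h ^ D := one_le_pow₀ h5
    have e2 : (2 * h ^ D + 1) ^ d ≤ 3 ^ d * ((100 : ℝ) ^ d) ^ (D * d) *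
        ((((100 : ℝ) ^ d) ^ (D * d)) ^ K) := by
      calc (2 * h ^ D + 1) ^ d ≤ (3 * (((100 : ℝ) ^ d) ^ (K + 1)) ^ D) ^ d := by
            apply pow_le_pow_left₀ (by positivity)
            have : h ^ D ≤ (((100 : ℝ) ^ d) ^ (K + 1)) ^ D := pow_le_pow_left₀ (by linarith) g2 D
            linarith
        _ = _ := Good_pow _ _ _ _
    calc (2 * h ^ D + 1) ^ d * δ ^ 2 ^ K ≤ 3 ^ d * ((100 : ℝ) ^ d) ^ (D * d) *
        ((((100 : ℝ) ^ d) ^ (D * d)) ^ K) * δ ^ 2 ^ K :=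
          mul_le_mul_of_nonneg_right e2 (by positivity)
      _ = _ := by ring

/-- **The good event.**  `M` bounds the good edges, `h` is the truncation level. -/
theorem good_event (hd : 2 ≤ d) {ν : Measure ℝ} [IsProbabilityMeasure ν] [IsProbabilityMeasure P]
    (hτ : ∀ e, Measurable (τ e)) (hi : iIndepFun τ P) (hν : ∀ e, P.map (τ e) = ν) {ε : ℝ} (hε : 0 < ε) :
    ∃ M : ℝ, 0 < M ∧ ∀ D : ℕ, ∃ h₀ : ℝ, 1 ≤ h₀ ∧ ∀ h, h₀ ≤ h → ∃ K : ℕ,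
      M * (4 * 10 ^ K + 1) ^ d < h ∧ ∀ z : Fin d → ℤ,
        P.real {ω | ¬ (GoodAt (fun e => τ e ω ≤ M) K (h ^ D) z ∧
          ∀ e : Ed d, (dS e.1 0 ≤ 3 ∨ dS e.1 z ≤ 3) → τ e ω ≤ h)} ≤ ε := by
  set δ : ℝ := min (ε / 12) (1 / (2 * 10 ^ d)) with hδ
  have hδ0 : 0 < δ := lt_min (by linarith) (by positivity)
  have hδε : 4 * δ ≤ ε / 3 := by
    have := min_le_left (ε / 12) (1 / (2 * 10 ^ d : ℝ))
    linarith
  have hδ10 : 10 ^ d * δ ≤ 1 / 2 := by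
    have h1 := min_le_right (ε / 12) (1 / (2 * 10 ^ d : ℝ))
    have h2 : (0 : ℝ) < 10 ^ d := by positivity
    calc 10 ^ d * δ ≤ 10 ^ d * (1 / (2 * 10 ^ d)) := mul_le_mul_of_nonneg_left h1 h2.le
      _ = 1 / 2 := by field_simp
  have hδ1 : δ < 1 := by
    have : (1 : ℝ) ≤ 10 ^ d := one_le_pow₀ (by norm_num)
    nlinarith
  have hd0 : (0 : ℝ) < d := by
    have : 0 < d := by omega
    exact_mod_cast this
  obtain ⟨M, hM1, hM2⟩ := ((Good_Ioi ν).eventually_le_const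
    (show 0 < δ / 361 ^ d / (3 ^ d * d) by positivity)).and (eventually_gt_atTop (0 : ℝ)) |>.exists
  refine ⟨M, hM2, fun D => ?_⟩
  obtain ⟨h₁, hh1, hh2⟩ := Good_scale hd hM2 hδ0 hδ1 D (show 0 < ε / 3 by linarith)
  obtain ⟨h₂, hh3⟩ := eventually_atTop.1 ((Good_Ioi ν).eventually_le_const
    (show 0 < ε / 3 / (2 * (7 ^ d * d)) by positivity))
  refine ⟨max h₁ h₂, hh1.trans (le_max_left _ _), fun h hh => ?_⟩
  obtain ⟨K, hK1, hK2⟩ := hh2 h ((le_max_left _ _).trans hh)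
  refine ⟨K, hK1, fun z => ?_⟩
  have hhpos : 0 < h := by
    have := (hh1.trans (le_max_left _ _)).trans hh
    linarith
  have hq : ∀ e, P.real {ω | ¬ τ e ω ∈ Set.Iic M} ≤ ν.real (Set.Ioi M) := by
    intro e
    have : {ω | ¬ τ e ω ∈ Set.Iic M} = {ω | M < τ e ω} := by
      ext ω
      simp
    rw [this, Good_law hτ hν]
  have hq0 : 3 ^ d * d * ν.real (Set.Ioi M) ≤ δ / 361 ^ d := by
    rw [le_div_iff₀ (by positivity)] at hM1
    linarith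
  have p1 := P_not_big hd hτ hi measurableSet_Iic hδ0.le hq hq0 K (B := h ^ D) (by positivity)
  have p2 := P_not_mid hd hτ hi measurableSet_Iic hδ0.le hδ10 hq hq0 K z
  have p3 := P_not_small (P := P) (τ := τ) (Ωq := ν.real (Set.Ioi h)) (h := h) measureReal_nonneg
    (fun e => (Good_law hτ hν e h).le) z
  have p4 : 2 * (7 ^ d * d) * ν.real (Set.Ioi h) ≤ ε / 3 := by
    have := hh3 h ((le_max_right _ _).trans hh)
    rw [le_div_iff₀ (by positivity)] at this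
    linarith
  have hsub : {ω | ¬ (GoodAt (fun e => τ e ω ≤ M) K (h ^ D) z ∧
      ∀ e : Ed d, (dS e.1 0 ≤ 3 ∨ dS e.1 z ≤ 3) → τ e ω ≤ h)} ⊆
      ({ω | ¬ ∀ c, (dS c 0 : ℝ) ≤ h ^ D → HasWall (GR fun e => τ e ω ∈ Set.Iic M) (10 ^ K) c} ∪
      {ω | ¬ ∀ k < K, ∀ c, (dS c 0 ≤ 10 ^ (k + 2) ∨ dS c z ≤ 10 ^ (k + 2)) →
        HasWall (GR fun e => τ e ω ∈ Set.Iic M) (10 ^ k) c}) ∪
      {ω | ¬ ∀ e : Ed d, (dS e.1 0 ≤ 3 ∨ dS e.1 z ≤ 3) → τ e ω ≤ h} := by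
    intro ω hω
    by_contra hc
    rw [Set.mem_union, Set.mem_union, not_or, not_or] at hc
    obtain ⟨⟨h1, h2⟩, h3⟩ := hc
    simp only [Set.mem_ofPred_eq, not_not] at h1 h2 h3
    exact hω ⟨⟨h1, h2⟩, h3⟩
  refine (measureReal_mono hsub (measure_ne_top _ _)).trans ?_
  refine (measureReal_union_le _ _).trans ?_
  have p5 := measureReal_union_le (μ := P)
    {ω | ¬ ∀ c, (dS c 0 : ℝ) ≤ h ^ D → HasWall (GR fun e => τ e ω ∈ Set.Iic M) (10 ^ K) c}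
    {ω | ¬ ∀ k < K, ∀ c, (dS c 0 ≤ 10 ^ (k + 2) ∨ dS c z ≤ 10 ^ (k + 2)) →
        HasWall (GR fun e => τ e ω ∈ Set.Iic M) (10 ^ k) c}
  linarith

end prob

end Pool.Agent.W_1b8d5d_wall
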