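import Pool.Agent.W_1b8d5d_wall.Sphere

/-!
MP_1b8d5d_pr, bridge to unbounded weights: walls of scale `10 r` from walls of scale `r`.
-/

set_option autoImplicit false

namespace Pool.Agent.W_1b8d5d_wall

open Relation

variable {d : ℕ}

theorem dS_add_right (u v x : Fin d → ℤ) : dS (u + x) (v + x) = dS u v := by
  unfold dS
  congr 1
  funext i
  simp

theorem Nb.add {u v : Fin d → ℤ} (h : Nb u v) (x : Fin d → ℤ) : Nb (u + x) (v + x) := by
  obtain ⟨i, h | h⟩ := h
  · exact ⟨i, Or.inl (by rw [h]; abel)⟩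
  · exact ⟨i, Or.inr (by rw [h]; abel)⟩

theorem dS_step {u v : Fin d → ℤ} (x : Fin d → ℤ) (h : dS u v ≤ 1) : dS v x ≤ dS u x + 1 := by
  have := dS_tri v u x
  rw [dS_comm v u] at this
  omega

/-- The smallest wall. -/
theorem hasWall_one (hd : 2 ≤ d) {G : (Fin d → ℤ) → (Fin d → ℤ) → Prop} {x : Fin d → ℤ}
    (h : ∀ u v, Nb u v → dS u x ≤ 1 → dS v x ≤ 1 → G u v) : HasWall G 1 x := by
  refine ⟨{s | dS s x = 1}, ?_, ?_, ?_⟩
  · intro s hs
    rw [Set.mem_ofPred_eq] at hs
    omega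
  · intro a ha b hb
    rw [Set.mem_ofPred_eq] at ha hb
    have e : ∀ c : Fin d → ℤ, dS (c - x) 0 = dS c x := by
      intro c
      rw [← dS_add_right (c - x) 0 x, sub_add_cancel, zero_add]
    have h1 := sphere_conn hd le_rfl (u := a - x) (v := b - x) (by rw [e]; exact ha) (by rw [e]; exact hb)
    have h2 := h1.lift (p := fun u v => G u v ∧ v ∈ {s | dS s x = 1}) (fun c => c + x) (by
      rintro u v ⟨h3, h4, h5⟩
      have e1 : dS (u + x) x = 1 := by
        have := dS_add_right u 0 x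
        rw [zero_add] at this
        rw [this, h4]
      have e2 : dS (v + x) x = 1 := by
        have := dS_add_right v 0 x
        rw [zero_add] at this
        rw [this, h5]
      exact ⟨h _ _ (h3.add x) e1.le e2.le, e2⟩)
    have e1 : a - x + x = a := sub_add_cancel a x
    have e2 : b - x + x = b := sub_add_cancel b x
    change ReflTransGen _ (a - x + x) (b - x + x) at h2
    rwa [e1, e2] at h2
  · intro a b ha hb hab
    obtain ⟨z, hz, hz2⟩ := hab.level (fun z => dS z x) (fun u v huv => dS_step x huv) (j := 1) ha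
      (by omega)
    exact hz2.1 hz

/-- Two walls around points at distance `2 r` meet. -/
theorem inter {G : (Fin d → ℤ) → (Fin d → ℤ) → Prop} (hG : ∀ u v, G u v → dS u v ≤ 1) {r : ℕ}
    (hr : 1 ≤ r) {y : Fin d → ℤ} {i : Fin d} {A B : Set (Fin d → ℤ)} (hA : Wall G r y A)
    (hB : Wall G r (y + Pi.single i (2 * (r : ℤ))) B) : ∃ q, q ∈ A ∧ q ∈ B := by
  obtain ⟨t, ht1, ht2, ht3⟩ := line_meet hB.near hB.sep i (-1) (Or.inr rfl)
  obtain ⟨t', hs1, hs2, hs3⟩ := line_meet hB.near hB.sep i 1 (Or.inl rfl)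
  rcases av_or_meet (A := B) (B := A) hG ht3 (hB.conn _ ht3 _ hs3) with h | ⟨q, h1, h2⟩
  · exfalso
    refine hA.sep _ _ ?_ ?_ h
    · rw [add_assoc, ← Pi.single_add, dS_add_single]
      omega
    · rw [add_assoc, ← Pi.single_add, dS_add_single]
      omega
  · exact ⟨q, h2, h1⟩

/-- The coarse lattice. -/
def pt (x : Fin d → ℤ) (r : ℕ) (u : Fin d → ℤ) : Fin d → ℤ := fun i => x i + 2 * (r : ℤ) * u i

/-- The coarse index. -/
def ci (x : Fin d → ℤ) (r : ℕ) (z : Fin d → ℤ) : Fin d → ℤ := fun i => (z i - x i + r) / (2 * (r : ℤ))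

theorem pt_add (x : Fin d → ℤ) (r : ℕ) (u : Fin d → ℤ) (i : Fin d) :
    pt x r (u + Pi.single i 1) = pt x r u + Pi.single i (2 * (r : ℤ)) := by
  funext k
  unfold pt
  rcases eq_or_ne k i with rfl | h
  · simp only [Pi.add_apply, Pi.single_eq_same]
    ring
  · simp [h]

theorem dS_pt {x : Fin d → ℤ} {r : ℕ} {u : Fin d → ℤ} : dS (pt x r u) x = 2 * r * dS u 0 := by
  have e : ∀ i, (pt x r u i - x i).natAbs = 2 * r * (u i).natAbs := by
    intro i
    unfold pt
    rw [add_sub_cancel_left, Int.natAbs_mul, Int.natAbs_mul]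
    simp
  apply le_antisymm
  · rw [dS_le]
    intro i
    rw [e]
    exact Nat.mul_le_mul_left _ (le_of_sph rfl i)
  · rcases Nat.eq_zero_or_pos (dS u 0) with h | h
    · rw [h]
      simp
    · obtain ⟨i, hi⟩ := exists_of_sph h (u := u) rfl
      have := dS_le.1 (le_refl (dS (pt x r u) x)) i
      rw [e, hi] at this
      exact this

private theorem Renorm_div {t r : ℤ} (hr : 1 ≤ r) :
    2 * r * ((t + r) / (2 * r)) ≤ t + r ∧ t + r < 2 * r * ((t + r) / (2 * r)) + 2 * r := by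
  have h1 := Int.mul_ediv_add_emod (t + r) (2 * r)
  have h2 := Int.emod_nonneg (t + r) (by omega : 2 * r ≠ 0)
  have h3 := Int.emod_lt_of_pos (t + r) (by omega : 0 < 2 * r)
  constructor <;> linarith

theorem dS_ci {x : Fin d → ℤ} {r : ℕ} (hr : 1 ≤ r) (z : Fin d → ℤ) : dS z (pt x r (ci x r z)) ≤ r := by
  rw [dS_le]
  intro i
  have hr' : (1 : ℤ) ≤ r := by exact_mod_cast hr
  obtain ⟨h1, h2⟩ := Renorm_div (t := z i - x i) hr'
  unfold pt ci
  set c := (z i - x i + r) / (2 * (r : ℤ))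
  have h3 : -(r : ℤ) ≤ z i - (x i + 2 * r * c) := by linarith
  have h4 : z i - (x i + 2 * r * c) ≤ r := by linarith
  omega

theorem ci_step {x : Fin d → ℤ} {r : ℕ} (hr : 1 ≤ r) {z z' : Fin d → ℤ} (h : dS z z' ≤ 1) :
    dS (ci x r z') 0 ≤ dS (ci x r z) 0 + 1 := by
  have h1 : dS (ci x r z) (ci x r z') ≤ 1 := by
    rw [dS_le]
    intro i
    have hr' : (1 : ℤ) ≤ r := by exact_mod_cast hr
    obtain ⟨h1, h2⟩ := Renorm_div (t := z i - x i) hr'
    obtain ⟨h3, h4⟩ := Renorm_div (t := z' i - x i) hr'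
    have h5 := dS_le.1 h i
    unfold ci
    set c := (z i - x i + r) / (2 * (r : ℤ))
    set c' := (z' i - x i + r) / (2 * (r : ℤ))
    have h6 : z i - z' i ≤ 1 ∧ z' i - z i ≤ 1 := by omega
    have h7 : c - c' ≤ 1 := by
      by_contra hc
      push Not at hc
      have : 2 * (r : ℤ) * 2 ≤ 2 * r * (c - c') := mul_le_mul_of_nonneg_left (by omega) (by omega)
      nlinarith
    have h8 : c' - c ≤ 1 := by
      by_contra hc
      push Not at hc
      have : 2 * (r : ℤ) * 2 ≤ 2 * r * (c' - c) := mul_le_mul_of_nonneg_left (by omega) (by omega)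
      nlinarith
    omega
  have h2 := dS_tri (ci x r z') (ci x r z) 0
  have h3 := dS_comm (ci x r z') (ci x r z)
  omega

theorem ci_small {x : Fin d → ℤ} {r : ℕ} (hr : 1 ≤ r) {z : Fin d → ℤ} (h : dS z x ≤ 10 * r) :
    dS (ci x r z) 0 ≤ 5 := by
  rw [dS_le]
  intro i
  have hr' : (1 : ℤ) ≤ r := by exact_mod_cast hr
  obtain ⟨h1, h2⟩ := Renorm_div (t := z i - x i) hr'
  have h5 := dS_le.1 h i
  unfold ci
  simp only [Pi.zero_apply, sub_zero]
  set c := (z i - x i + r) / (2 * (r : ℤ))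
  have h6 : z i - x i ≤ 10 * r ∧ -(10 * (r : ℤ)) ≤ z i - x i := by omega
  have h7 : c ≤ 5 := by
    by_contra hc
    push Not at hc
    have : 2 * (r : ℤ) * 6 ≤ 2 * r * c := mul_le_mul_of_nonneg_left (by omega) (by omega)
    nlinarith
  have h8 : -5 ≤ c := by
    by_contra hc
    push Not at hc
    have : 2 * (r : ℤ) * c ≤ 2 * r * (-6) := mul_le_mul_of_nonneg_left (by omega) (by omega)
    nlinarith
  omega

theorem ci_large {x : Fin d → ℤ} {r : ℕ} (hr : 1 ≤ r) {z : Fin d → ℤ} (h : 2 * (10 * r) < dS z x) :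
    10 ≤ dS (ci x r z) 0 := by
  obtain ⟨i, hi⟩ := lt_dS.1 h
  have hr' : (1 : ℤ) ≤ r := by exact_mod_cast hr
  obtain ⟨h1, h2⟩ := Renorm_div (t := z i - x i) hr'
  refine le_trans ?_ (le_of_sph rfl i)
  unfold ci
  set c := (z i - x i + r) / (2 * (r : ℤ))
  have h6 : 20 * (r : ℤ) < z i - x i ∨ z i - x i < -(20 * (r : ℤ)) := by omega
  rcases h6 with h6 | h6
  · have h7 : 10 ≤ c := by
      by_contra hc
      push Not at hc
      have : 2 * (r : ℤ) * c ≤ 2 * r * 9 := mul_le_mul_of_nonneg_left (by omega) (by omega)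
      nlinarith
    omega
  · have h7 : c ≤ -10 := by
      by_contra hc
      push Not at hc
      have : 2 * (r : ℤ) * (-9) ≤ 2 * r * c := mul_le_mul_of_nonneg_left (by omega) (by omega)
      nlinarith
    omega

/-- **Renormalisation.** -/
theorem renorm (hd : 2 ≤ d) {G : (Fin d → ℤ) → (Fin d → ℤ) → Prop} (hG : ∀ u v, G u v → dS u v ≤ 1)
    {r j : ℕ} (hr : 1 ≤ r) (hj : 6 ≤ j) (hj' : j ≤ 9) {x : Fin d → ℤ}
    (h : ∀ u, dS u 0 = j → HasWall G r (pt x r u)) : HasWall G (10 * r) x := by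
  classical
  choose! S hS using h
  refine ⟨{s | ∃ u, dS u 0 = j ∧ s ∈ S u}, ?_, ?_, ?_⟩
  · rintro s ⟨u, hu, hs⟩
    have h1 := (hS u hu).near s hs
    have h2 := dS_pt (x := x) (r := r) (u := u)
    rw [hu] at h2
    have h3 := dS_tri s (pt x r u) x
    have h4 := dS_tri (pt x r u) s x
    rw [dS_comm (pt x r u) s] at h4
    constructor
    · nlinarith
    · nlinarith
  · rintro a ⟨u, hu, ha⟩ b ⟨u', hu', hb⟩
    have hsub : ∀ w, dS w 0 = j → ∀ c ∈ S w, ∀ c' ∈ S w,
        ReflTransGen (fun p q => G p q ∧ q ∈ {s | ∃ u, dS u 0 = j ∧ s ∈ S u}) c c' := by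
      intro w hw c hc c' hc'
      exact ((hS w hw).conn c hc c' hc').lift id fun p q hpq => ⟨hpq.1, w, hw, hpq.2⟩
    have hchain := sphere_conn hd (by omega) hu hu'
    have key : ∀ b ∈ S u',
        ReflTransGen (fun p q => G p q ∧ q ∈ {s | ∃ u, dS u 0 = j ∧ s ∈ S u}) a b := by
      clear hb
      induction hchain with
      | refl => exact fun b hb => hsub u hu a ha b hb
      | tail h1 h2 ih =>
        rename_i v w
        intro b hb
        obtain ⟨⟨i, hi⟩, hv, hw⟩ := h2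
        obtain ⟨q, hq1, hq2⟩ : ∃ q, q ∈ S v ∧ q ∈ S w := by
          rcases hi with hi | hi
          · have hw' := hS w hw
            rw [hi, pt_add, ← hi] at hw'
            exact inter hG hr (hS v hv) hw'
          · have hv' := hS v hv
            rw [hi, pt_add, ← hi] at hv'
            obtain ⟨q, h3, h4⟩ := inter hG hr (hS w hw) hv'
            exact ⟨q, h4, h3⟩
        exact (ih hv q hq1).trans (hsub w hw q hq2 b hb)
    exact key b hb
  · intro a b ha hb hab
    have h1 := ci_small (x := x) hr ha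
    have h2 := ci_large (x := x) hr hb
    obtain ⟨z, hz, hz2⟩ := hab.level (fun z => dS (ci x r z) 0) (fun u v huv => ci_step hr huv)
      (j := j) (by omega) (by omega)
    have hz' : dS (ci x r z) 0 = j := hz
    have hsub : S (ci x r z) ⊆ {s | ∃ u, dS u 0 = j ∧ s ∈ S u} := fun s hs => ⟨_, hz', hs⟩
    refine (hS (ci x r z) hz').sep z b (dS_ci hr z) ?_ (hz2.mono hsub)
    have h3 := dS_tri b (pt x r (ci x r z)) x
    rw [dS_pt, hz'] at h3
    nlinarith

end Pool.Agent.W_1b8d5d_wall
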