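import Pool.Agent.W_1b8d5d_wall.WDefs

/-!
MP_1b8d5d_pr, bridge to unbounded weights: the spheres of the sup norm are connected.
-/

set_option autoImplicit false

namespace Pool.Agent.W_1b8d5d_wall

open Relation

variable {d : ℕ}

/-- A step in the sphere of radius `j`. -/
def Qs (j : ℕ) (u v : Fin d → ℤ) : Prop := Nb u v ∧ dS u 0 = j ∧ dS v 0 = j

theorem Qs.symm {j : ℕ} {u v : Fin d → ℤ} (h : Qs j u v) : Qs j v u := ⟨h.1.symm, h.2.2, h.2.1⟩

theorem sph_of {j : ℕ} {u : Fin d → ℤ} (h : ∀ i, (u i).natAbs ≤ j) {i₀ : Fin d} (h0 : (u i₀).natAbs = j) :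
    dS u 0 = j := by
  apply le_antisymm
  · rw [dS_le]
    intro i
    simpa using h i
  · have h1 := dS_le.1 (le_refl (dS u 0)) i₀
    simp only [Pi.zero_apply, sub_zero] at h1
    omega

theorem le_of_sph {j : ℕ} {u : Fin d → ℤ} (h : dS u 0 = j) (i : Fin d) : (u i).natAbs ≤ j := by
  have h1 := dS_le.1 h.le i
  simpa using h1

theorem exists_of_sph {j : ℕ} (hj : 1 ≤ j) {u : Fin d → ℤ} (h : dS u 0 = j) :
    ∃ i, (u i).natAbs = j := by
  have h1 : j - 1 < dS u 0 := by omega
  obtain ⟨i, hi⟩ := lt_dS.1 h1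
  simp only [Pi.zero_apply, sub_zero] at hi
  have := le_of_sph h i
  exact ⟨i, by omega⟩

private theorem Sphere_upd {j : ℕ} {u : Fin d → ℤ} (h : dS u 0 = j) {i₀ i : Fin d}
    (h0 : (u i₀).natAbs = j) (hi : i ≠ i₀) {c : ℤ} (hc : c.natAbs ≤ j) :
    dS (Function.update u i c) 0 = j := by
  refine sph_of (i₀ := i₀) (fun k => ?_) ?_
  · rcases eq_or_ne k i with rfl | hk
    · rw [Function.update_self]
      exact hc
    · rw [Function.update_of_ne hk]
      exact le_of_sph h k
  · rw [Function.update_of_ne hi.symm]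
    exact h0

private theorem Sphere_mv {j : ℕ} (n : ℕ) : ∀ {u : Fin d → ℤ} (_ : dS u 0 = j) {i₀ i : Fin d}
    (_ : (u i₀).natAbs = j) (_ : i ≠ i₀) {c : ℤ} (_ : c.natAbs ≤ j), (c - u i).natAbs = n →
    ReflTransGen (Qs j) u (Function.update u i c) := by
  induction n with
  | zero =>
    intro u h i₀ i h0 hi c hc hn
    have : c = u i := by omega
    rw [this, Function.update_eq_self]
  | succ n ih =>
    intro u h i₀ i h0 hi c hc hn
    obtain ⟨s, hs, hs2⟩ : ∃ s : ℤ, (s = 1 ∨ s = -1) ∧ (c - (u i + s)).natAbs = n := by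
      rcases lt_or_ge (u i) c with h1 | h1
      · exact ⟨1, Or.inl rfl, by omega⟩
      · exact ⟨-1, Or.inr rfl, by omega⟩
    have hui := le_of_sph h i
    have hs3 : (u i + s).natAbs ≤ j := by
      rcases hs with rfl | rfl <;> omega
    have h1 := Sphere_upd h h0 hi hs3
    have h2 : Qs j u (Function.update u i (u i + s)) := by
      refine ⟨⟨i, ?_⟩, h, h1⟩
      rcases hs with rfl | rfl
      · left
        funext k
        rcases eq_or_ne k i with rfl | hk
        · simp
        · simp [hk]
      · right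
        funext k
        rcases eq_or_ne k i with rfl | hk
        · simp
        · simp [hk]
    have h3 := ih h1 (i₀ := i₀) (i := i) (by rw [Function.update_of_ne hi.symm]; exact h0) hi hc
      (by rw [Function.update_self]; exact hs2)
    rw [Function.update_idem] at h3
    exact ReflTransGen.head h2 h3

private theorem Sphere_corner (hd : 2 ≤ d) {j : ℕ} (hj : 1 ≤ j) {u : Fin d → ℤ} (h : dS u 0 = j) :
    ReflTransGen (Qs j) u (fun _ => (j : ℤ)) := by
  classical
  obtain ⟨i₀, h0⟩ := exists_of_sph hj h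
  have key : ∀ s : Finset (Fin d), i₀ ∉ s →
      ReflTransGen (Qs j) u (fun i => if i ∈ s then (j : ℤ) else u i) ∧
      dS (fun i => if i ∈ s then (j : ℤ) else u i) 0 = j := by
    intro s
    induction s using Finset.induction_on with
    | empty =>
      intro _
      constructor
      · have : (fun i => if i ∈ (∅ : Finset (Fin d)) then (j : ℤ) else u i) = u := by
          funext i
          simp
        rw [this]
      · have : (fun i => if i ∈ (∅ : Finset (Fin d)) then (j : ℤ) else u i) = u := by
          funext i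
          simp
        rw [this]
        exact h
    | insert k s hk ih =>
      intro hi
      rw [Finset.mem_insert, not_or] at hi
      obtain ⟨h1, h2⟩ := ih hi.2
      have e : (fun i => if i ∈ insert k s then (j : ℤ) else u i) =
          Function.update (fun i => if i ∈ s then (j : ℤ) else u i) k j := by
        funext i
        rcases eq_or_ne i k with rfl | hne
        · simp
        · simp [hne]
      have hv0 : ((fun i => if i ∈ s then (j : ℤ) else u i) i₀).natAbs = j := by
        simp only [if_neg hi.2]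
        exact h0
      rw [e]
      exact ⟨h1.trans (Sphere_mv _ h2 hv0 (fun hc => hi.1 hc.symm) (by simp) rfl),
        Sphere_upd h2 hv0 (fun hc => hi.1 hc.symm) (by simp)⟩
  obtain ⟨h1, h2⟩ := key (Finset.univ.erase i₀) (by simp)
  have : Nontrivial (Fin d) := Fin.nontrivial_iff_two_le.2 hd
  obtain ⟨i₁, hi₁⟩ := exists_ne i₀
  have h3 := Sphere_mv _ h2 (i₀ := i₁) (i := i₀) (c := (j : ℤ)) (by simp [hi₁]) hi₁.symm (by simp) rfl
  have e : Function.update (fun i => if i ∈ Finset.univ.erase i₀ then (j : ℤ) else u i) i₀ (j : ℤ) =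
      fun _ => (j : ℤ) := by
    funext i
    rcases eq_or_ne i i₀ with rfl | hne
    · simp
    · simp [hne]
  rw [e] at h3
  exact h1.trans h3

/-- The sphere is connected. -/
theorem sphere_conn (hd : 2 ≤ d) {j : ℕ} (hj : 1 ≤ j) {u v : Fin d → ℤ} (hu : dS u 0 = j)
    (hv : dS v 0 = j) : ReflTransGen (Qs j) u v := by
  have h1 := Sphere_corner hd hj hu
  have h2 := Sphere_corner hd hj hv
  exact h1.trans (rtg_symm (fun _ _ h => h.symm) h2)

end Pool.Agent.W_1b8d5d_wall
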