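import Mathlib

/-!
MP_1b8d5d_pr, bridge to unbounded weights in every dimension: walls.
-/

set_option autoImplicit false

namespace Pool.Agent.W_1b8d5d_wall

open Relation

variable {d : ℕ}

/-- The sup distance on `Z^d`. -/
def dS (x y : Fin d → ℤ) : ℕ := Finset.univ.sup fun i => (x i - y i).natAbs

theorem dS_le {x y : Fin d → ℤ} {m : ℕ} : dS x y ≤ m ↔ ∀ i, (x i - y i).natAbs ≤ m := by
  unfold dS
  rw [Finset.sup_le_iff]
  simp

theorem lt_dS {x y : Fin d → ℤ} {m : ℕ} : m < dS x y ↔ ∃ i, m < (x i - y i).natAbs := by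
  unfold dS
  rw [Finset.lt_sup_iff]
  simp

theorem dS_self (x : Fin d → ℤ) : dS x x = 0 := by
  have : dS x x ≤ 0 := dS_le.2 fun i => by simp
  omega

theorem dS_comm (x y : Fin d → ℤ) : dS x y = dS y x := by
  unfold dS
  congr 1
  funext i
  omega

theorem dS_tri (x y z : Fin d → ℤ) : dS x z ≤ dS x y + dS y z := by
  rw [dS_le]
  intro i
  have h1 := dS_le.1 (le_refl (dS x y)) i
  have h2 := dS_le.1 (le_refl (dS y z)) i
  omega

theorem rtg_symm {α : Type*} {R : α → α → Prop} (hR : ∀ u v, R u v → R v u) {a b : α}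
    (h : ReflTransGen R a b) : ReflTransGen R b a := by
  induction h with
  | refl => exact ReflTransGen.refl
  | tail _ h2 ih => exact ReflTransGen.head (hR _ _ h2) ih

/-- `a` and `b` are joined by a chain of king moves which avoids `S`. -/
def Av (S : Set (Fin d → ℤ)) (a b : Fin d → ℤ) : Prop :=
  a ∉ S ∧ ReflTransGen (fun u v => dS u v ≤ 1 ∧ v ∉ S) a b

/-- A wall around `x` at distance between `r` and `2 r`, connected by the relation `G`. -/
structure Wall (G : (Fin d → ℤ) → (Fin d → ℤ) → Prop) (r : ℕ) (x : Fin d → ℤ)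
    (S : Set (Fin d → ℤ)) : Prop where
  near : ∀ s ∈ S, r ≤ dS s x ∧ dS s x ≤ 2 * r
  conn : ∀ a ∈ S, ∀ b ∈ S, ReflTransGen (fun u v => G u v ∧ v ∈ S) a b
  sep : ∀ a b, dS a x ≤ r → 2 * r < dS b x → ¬ Av S a b

/-- There is a wall around `x`. -/
def HasWall (G : (Fin d → ℤ) → (Fin d → ℤ) → Prop) (r : ℕ) (x : Fin d → ℤ) : Prop :=
  ∃ S, Wall G r x S

/-- Two vertices are joined by an edge in direction `i`. -/
def Nb (u v : Fin d → ℤ) : Prop := ∃ i, v = u + Pi.single i 1 ∨ u = v + Pi.single i 1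

theorem Nb.symm {u v : Fin d → ℤ} (h : Nb u v) : Nb v u := by
  obtain ⟨i, h | h⟩ := h
  · exact ⟨i, Or.inr h⟩
  · exact ⟨i, Or.inl h⟩

theorem dS_add_single (u : Fin d → ℤ) (i : Fin d) (t : ℤ) :
    dS (u + Pi.single i t) u = t.natAbs := by
  apply le_antisymm
  · rw [dS_le]
    intro j
    rw [Pi.add_apply, add_sub_cancel_left]
    rcases eq_or_ne j i with rfl | h
    · rw [Pi.single_eq_same]
    · rw [Pi.single_eq_of_ne h]
      simp
  · have h := dS_le.1 (le_refl (dS (u + Pi.single i t) u)) i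
    rwa [Pi.add_apply, add_sub_cancel_left, Pi.single_eq_same] at h

theorem Nb.dS_le {u v : Fin d → ℤ} (h : Nb u v) : dS u v ≤ 1 := by
  obtain ⟨i, h | h⟩ := h
  · rw [h, dS_comm, dS_add_single]
    rfl
  · rw [h, dS_add_single]
    rfl

/-- A chain avoids a set or meets it. -/
theorem av_or_meet {A B : Set (Fin d → ℤ)} {R : (Fin d → ℤ) → (Fin d → ℤ) → Prop}
    (hR : ∀ u v, R u v → dS u v ≤ 1) {a b : Fin d → ℤ} (ha : a ∈ A)
    (h : ReflTransGen (fun u v => R u v ∧ v ∈ A) a b) : Av B a b ∨ ∃ q ∈ A, q ∈ B := by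
  by_cases hq : ∃ q ∈ A, q ∈ B
  · exact Or.inr hq
  · left
    push Not at hq
    refine ⟨hq a ha, ?_⟩
    exact h.lift id fun u v h => ⟨hR u v h.1, hq v h.2⟩

theorem Av.mono {S S' : Set (Fin d → ℤ)} (h : S' ⊆ S) {a b : Fin d → ℤ} (hab : Av S a b) :
    Av S' a b :=
  ⟨fun hc => hab.1 (h hc), hab.2.lift id fun _ _ h1 => ⟨h1.1, fun hc => h1.2 (h hc)⟩⟩

/-- The end of an avoiding chain is not in the set. -/
theorem Av.right {S : Set (Fin d → ℤ)} {a b : Fin d → ℤ} (hab : Av S a b) : b ∉ S := by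
  rcases ReflTransGen.cases_tail hab.2 with h | ⟨c, -, hc⟩
  · rw [h]
    exact hab.1
  · exact hc.2

/-- Intermediate values along an avoiding chain. -/
theorem Av.level {S : Set (Fin d → ℤ)} {a b : Fin d → ℤ} (hab : Av S a b)
    (f : (Fin d → ℤ) → ℕ) (hf : ∀ u v, dS u v ≤ 1 → f v ≤ f u + 1) {j : ℕ} (h1 : f a ≤ j) (h2 : j ≤ f b) :
    ∃ z, f z = j ∧ Av S z b := by
  obtain ⟨ha, h⟩ := hab
  induction h using ReflTransGen.head_induction_on with
  | refl => exact ⟨b, by omega, ha, ReflTransGen.refl⟩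
  | head hac hcb ih =>
    rename_i a' c'
    rcases h1.eq_or_lt with h3 | h3
    · exact ⟨a', h3, ha, ReflTransGen.head hac hcb⟩
    · have := hf a' c' hac.1
      exact ih (by omega) hac.2

/-- The straight line. -/
theorem line_meet {S : Set (Fin d → ℤ)} {x : Fin d → ℤ} {r : ℕ}
    (near : ∀ s ∈ S, r ≤ dS s x ∧ dS s x ≤ 2 * r)
    (sep : ∀ a b, dS a x ≤ r → 2 * r < dS b x → ¬ Av S a b) (i : Fin d) (s : ℤ) (hs : s = 1 ∨ s = -1) :
    ∃ t : ℕ, r ≤ t ∧ t ≤ 2 * r ∧ x + Pi.single i (s * t) ∈ S := by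
  have hd : ∀ t : ℕ, dS (x + Pi.single i (s * (t : ℤ))) x = t := by
    intro t
    rw [dS_add_single]
    rcases hs with rfl | rfl <;> simp
  by_contra hc
  push Not at hc
  have hn : ∀ t : ℕ, x + Pi.single i (s * (t : ℤ)) ∉ S := by
    intro t ht
    have h1 := near _ ht
    rw [hd] at h1
    exact hc t h1.1 h1.2 ht
  have key : ∀ n : ℕ, Av S x (x + Pi.single i (s * (n : ℤ))) := by
    intro n
    induction n with
    | zero =>
      have h0 := hn 0
      simp only [Nat.cast_zero, mul_zero, Pi.single_zero, add_zero] at h0 ⊢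
      exact ⟨h0, ReflTransGen.refl⟩
    | succ n ih =>
      refine ⟨ih.1, ReflTransGen.tail ih.2 ⟨?_, hn _⟩⟩
      have e : x + Pi.single i (s * ((n + 1 : ℕ) : ℤ)) =
          (x + Pi.single i (s * (n : ℤ))) + Pi.single i s := by
        rw [add_assoc, ← Pi.single_add]
        congr 2
        push_cast
        ring
      rw [e, dS_comm, dS_add_single]
      rcases hs with rfl | rfl <;> simp
  refine sep x _ (by rw [dS_self]; omega) ?_ (key (2 * r + 1))
  rw [hd]
  omega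

/-- Locality: a wall depends only on `G` in the ball of radius `2 r`. -/
theorem hasWall_congr {G G' : (Fin d → ℤ) → (Fin d → ℤ) → Prop} {r : ℕ} {x : Fin d → ℤ}
    (h : ∀ u v, dS u x ≤ 2 * r → dS v x ≤ 2 * r → (G u v ↔ G' u v)) :
    HasWall G r x ↔ HasWall G' r x := by
  have key : ∀ (G G' : (Fin d → ℤ) → (Fin d → ℤ) → Prop),
      (∀ u v, dS u x ≤ 2 * r → dS v x ≤ 2 * r → (G u v ↔ G' u v)) → HasWall G r x → HasWall G' r x := by
    rintro G G' h ⟨S, hS⟩
    refine ⟨S, hS.near, ?_, hS.sep⟩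
    intro a ha b hb
    have h1 := hS.conn a ha b hb
    clear hb
    induction h1 with
    | refl => exact ReflTransGen.refl
    | tail h2 h3 ih =>
      rename_i b' c'
      have hb' : b' ∈ S := by
        rcases ReflTransGen.cases_tail h2 with h4 | ⟨c, -, hc⟩
        · rw [h4]
          exact ha
        · exact hc.2
      exact ReflTransGen.tail ih ⟨(h b' c' (hS.near _ hb').2 (hS.near _ h3.2).2).1 h3.1, h3.2⟩
  exact ⟨key G G' h, key G' G fun u v hu hv => (h u v hu hv).symm⟩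

theorem hasWall_mono {G G' : (Fin d → ℤ) → (Fin d → ℤ) → Prop} {r : ℕ} {x : Fin d → ℤ}
    (h : ∀ u v, G u v → G' u v) (hw : HasWall G r x) : HasWall G' r x := by
  obtain ⟨S, hS⟩ := hw
  exact ⟨S, hS.near, fun a ha b hb => (hS.conn a ha b hb).lift id fun u v h1 => ⟨h u v h1.1, h1.2⟩,
    hS.sep⟩

end Pool.Agent.W_1b8d5d_wall
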