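import Pool.Agent.W_1b8d5d_wall.Renorm

/-!
MP_1b8d5d_pr, bridge to unbounded weights: the probability that there is no wall.
-/

set_option autoImplicit false

open MeasureTheory ProbabilityTheory Finset

namespace Pool.Agent.W_1b8d5d_wall

variable {d : ℕ}

/-- Edges: `(x, i)` joins `x` and `x + e_i`. -/
abbrev Ed (d : ℕ) := (Fin d → ℤ) × Fin d

/-- `e` joins `u` and `v`. -/
def Jn (e : Ed d) (u v : Fin d → ℤ) : Prop :=
  (u = e.1 ∧ v = e.1 + Pi.single e.2 1) ∨ (v = e.1 ∧ u = e.1 + Pi.single e.2 1)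

/-- `u` and `v` are joined by a good edge. -/
def GR (σ : Ed d → Prop) (u v : Fin d → ℤ) : Prop := ∃ e, Jn e u v ∧ σ e

theorem Jn.nb {e : Ed d} {u v : Fin d → ℤ} (h : Jn e u v) : Nb u v := by
  rcases h with ⟨h1, h2⟩ | ⟨h1, h2⟩
  · exact ⟨e.2, Or.inl (by rw [h2, h1])⟩
  · exact ⟨e.2, Or.inr (by rw [h2, h1])⟩

theorem GR.dS_le {σ : Ed d → Prop} (u v : Fin d → ℤ) (h : GR σ u v) : dS u v ≤ 1 := by
  obtain ⟨e, he, -⟩ := h
  exact he.nb.dS_le

/-- The ball of the sup norm. -/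
noncomputable def bal (x : Fin d → ℤ) (r : ℕ) : Finset (Fin d → ℤ) := Icc (fun i => x i - r) (fun i => x i + r)

theorem mem_bal {x z : Fin d → ℤ} {r : ℕ} : z ∈ bal x r ↔ dS z x ≤ r := by
  unfold bal
  rw [mem_Icc, dS_le, Pi.le_def, Pi.le_def, ← forall_and]
  refine forall_congr' fun i => ?_
  constructor
  · rintro ⟨h1, h2⟩
    omega
  · intro h
    omega

theorem card_bal (x : Fin d → ℤ) (r : ℕ) : (bal x r).card = (2 * r + 1) ^ d := by
  unfold bal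
  rw [Pi.card_Icc]
  have h : ∀ i : Fin d, (Icc (x i - (r : ℤ)) (x i + r)).card = 2 * r + 1 := by
    intro i
    rw [Int.card_Icc]
    omega
  rw [prod_congr rfl fun i _ => h i, prod_const, card_univ, Fintype.card_fin]

/-- No wall. -/
def NW (σ : Ed d → Prop) (r : ℕ) (x : Fin d → ℤ) : Prop := ¬ HasWall (GR σ) r x

/-- The edges with first end point at distance between `a` and `b`. -/
noncomputable def shl (x : Fin d → ℤ) (a b : ℕ) : Finset (Ed d) :=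
  ((bal x b).filter fun z => a ≤ dS z x) ×ˢ univ

theorem mem_shl {x : Fin d → ℤ} {a b : ℕ} {e : Ed d} : e ∈ shl x a b ↔ a ≤ dS e.1 x ∧ dS e.1 x ≤ b := by
  unfold shl
  rw [mem_product, mem_filter, mem_bal]
  constructor
  · rintro ⟨⟨h1, h2⟩, -⟩
    exact ⟨h2, h1⟩
  · rintro ⟨h1, h2⟩
    exact ⟨⟨h2, h1⟩, mem_univ _⟩

theorem NW_zero (hd : 2 ≤ d) {σ : Ed d → Prop} {x : Fin d → ℤ} (h : NW σ 1 x) :
    ∃ e ∈ shl x 0 1, ¬ σ e := by
  by_contra hc
  push Not at hc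
  apply h
  refine hasWall_one hd fun u v huv hu hv => ?_
  obtain ⟨i, h1 | h1⟩ := huv
  · exact ⟨(u, i), Or.inl ⟨rfl, h1⟩, hc _ (mem_shl.2 ⟨Nat.zero_le _, hu⟩)⟩
  · exact ⟨(v, i), Or.inr ⟨rfl, h1⟩, hc _ (mem_shl.2 ⟨Nat.zero_le _, hv⟩)⟩

/-- Some wall of scale `r` is missing on the coarse sphere of radius `j`. -/
def Ms (σ : Ed d → Prop) (r : ℕ) (x : Fin d → ℤ) (j : ℕ) : Prop :=
  ∃ u, dS u 0 = j ∧ NW σ r (pt x r u)

theorem NW_succ (hd : 2 ≤ d) {σ : Ed d → Prop} {x : Fin d → ℤ} {r : ℕ} (hr : 1 ≤ r)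
    (h : NW σ (10 * r) x) : Ms σ r x 6 ∧ Ms σ r x 9 := by
  constructor
  · by_contra hc
    unfold Ms NW at hc
    push Not at hc
    exact h (renorm hd GR.dS_le hr le_rfl (by norm_num) hc)
  · by_contra hc
    unfold Ms NW at hc
    push Not at hc
    exact h (renorm hd GR.dS_le hr (by norm_num) le_rfl hc)

theorem NW_congr {σ σ' : Ed d → Prop} {r : ℕ} {x : Fin d → ℤ}
    (h : ∀ e : Ed d, dS e.1 x ≤ 2 * r → (σ e ↔ σ' e)) : NW σ r x ↔ NW σ' r x := by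
  unfold NW
  rw [hasWall_congr]
  intro u v hu hv
  have key : ∀ σ σ' : Ed d → Prop, (∀ e : Ed d, dS e.1 x ≤ 2 * r → (σ e ↔ σ' e)) →
      GR σ u v → GR σ' u v := by
    rintro σ σ' h ⟨e, he, hs⟩
    refine ⟨e, he, (h e ?_).1 hs⟩
    rcases he with ⟨h1, -⟩ | ⟨h1, -⟩
    · rw [← h1]
      exact hu
    · rw [← h1]
      exact hv
  exact ⟨key σ σ' h, key σ' σ fun e he => (h e he).symm⟩

theorem Ms_congr {σ σ' : Ed d → Prop} {r : ℕ} {x : Fin d → ℤ} {j : ℕ}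
    (h : ∀ e ∈ shl x (2 * r * j - 2 * r) (2 * r * j + 2 * r), (σ e ↔ σ' e)) :
    Ms σ r x j ↔ Ms σ' r x j := by
  unfold Ms
  refine exists_congr fun u => and_congr_right fun hu => NW_congr fun e he => h e ?_
  rw [mem_shl]
  have h1 := dS_pt (x := x) (r := r) (u := u)
  rw [hu] at h1
  have h2 := dS_tri e.1 (pt x r u) x
  have h3 := dS_tri (pt x r u) e.1 x
  rw [dS_comm (pt x r u) e.1] at h3
  constructor <;> omega

section prob

variable {Ω : Type*} [MeasurableSpace Ω] {P : Measure Ω} {τ : Ed d → Ω → ℝ} {Gs : Set ℝ}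

/-- The event that a property of finitely many edges holds. -/
private def cyl (Gs : Set ℝ) (A : Finset (Ed d)) (Φ : (Ed d → Prop) → Prop) : Set (A → ℝ) :=
  {y | Φ fun e => ∃ h : e ∈ A, y ⟨e, h⟩ ∈ Gs}

private theorem cyl_meas (hG : MeasurableSet Gs) (A : Finset (Ed d)) (Φ : (Ed d → Prop) → Prop) :
    MeasurableSet (cyl Gs A Φ) := by
  classical
  have h1 : Measurable (fun (y : A → ℝ) (e : A) => decide (y e ∈ Gs)) := by
    refine measurable_pi_lambda _ fun e => ?_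
    refine measurable_to_bool ?_
    have : (fun y : A → ℝ => decide (y e ∈ Gs)) ⁻¹' {true} = (fun y : A → ℝ => y e) ⁻¹' Gs := by
      ext y
      simp
    rw [this]
    exact measurable_pi_apply e hG
  have h2 : cyl Gs A Φ = (fun (y : A → ℝ) (e : A) => decide (y e ∈ Gs)) ⁻¹'
      {b | Φ fun e => ∃ h : e ∈ A, b ⟨e, h⟩ = true} := by
    ext y
    simp [cyl]
  rw [h2]
  exact h1 (MeasurableSet.of_discrete)

private theorem cyl_eq {A : Finset (Ed d)} {Φ : (Ed d → Prop) → Prop}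
    (hΦ : ∀ σ σ', (∀ e ∈ A, (σ e ↔ σ' e)) → (Φ σ ↔ Φ σ')) :
    {ω | Φ fun e => τ e ω ∈ Gs} = (fun ω (e : A) => τ e ω) ⁻¹' cyl Gs A Φ := by
  ext ω
  show Φ _ ↔ Φ _
  refine hΦ _ _ fun e he => ?_
  constructor
  · intro h
    exact ⟨he, h⟩
  · rintro ⟨_, h⟩
    exact h

theorem meas_of_dep (hτ : ∀ e, Measurable (τ e)) (hG : MeasurableSet Gs) {A : Finset (Ed d)}
    {Φ : (Ed d → Prop) → Prop} (hΦ : ∀ σ σ', (∀ e ∈ A, (σ e ↔ σ' e)) → (Φ σ ↔ Φ σ')) :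
    MeasurableSet {ω | Φ fun e => τ e ω ∈ Gs} := by
  rw [cyl_eq hΦ]
  have h1 : Measurable (fun ω (e : A) => τ e ω) := measurable_pi_lambda _ fun e => hτ e
  exact h1 (cyl_meas hG A Φ)

theorem indep_of_dep (hτ : ∀ e, Measurable (τ e)) (hi : iIndepFun τ P) (hG : MeasurableSet Gs)
    {A B : Finset (Ed d)} (hAB : Disjoint A B) {Φ Ψ : (Ed d → Prop) → Prop}
    (hΦ : ∀ σ σ', (∀ e ∈ A, (σ e ↔ σ' e)) → (Φ σ ↔ Φ σ'))
    (hΨ : ∀ σ σ', (∀ e ∈ B, (σ e ↔ σ' e)) → (Ψ σ ↔ Ψ σ')) :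
    P.real {ω | Φ (fun e => τ e ω ∈ Gs) ∧ Ψ (fun e => τ e ω ∈ Gs)} =
      P.real {ω | Φ fun e => τ e ω ∈ Gs} * P.real {ω | Ψ fun e => τ e ω ∈ Gs} := by
  have h1 := hi.indepFun_finset A B hAB hτ
  have h2 := h1.measure_inter_preimage_eq_mul _ _ (cyl_meas hG A Φ) (cyl_meas hG B Ψ)
  have h3 : {ω | Φ (fun e => τ e ω ∈ Gs) ∧ Ψ (fun e => τ e ω ∈ Gs)} =
      {ω | Φ fun e => τ e ω ∈ Gs} ∩ {ω | Ψ fun e => τ e ω ∈ Gs} := rfl
  rw [h3, cyl_eq hΦ, cyl_eq hΨ]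
  unfold Measure.real
  rw [h2, ENNReal.toReal_mul]

theorem NW_dep {r : ℕ} {x : Fin d → ℤ} (σ σ' : Ed d → Prop)
    (h : ∀ e ∈ shl x 0 (2 * r), (σ e ↔ σ' e)) : NW σ r x ↔ NW σ' r x :=
  NW_congr fun e he => h e (mem_shl.2 ⟨Nat.zero_le _, he⟩)

theorem measurableSet_NW (hτ : ∀ e, Measurable (τ e)) (hG : MeasurableSet Gs) (r : ℕ) (x : Fin d → ℤ) :
    MeasurableSet {ω | NW (fun e => τ e ω ∈ Gs) r x} :=
  meas_of_dep hτ hG (fun σ σ' h => NW_dep σ σ' h)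

/-- **There are walls.** -/
theorem P_noWall (hd : 2 ≤ d) [IsProbabilityMeasure P] (hτ : ∀ e, Measurable (τ e)) (hi : iIndepFun τ P)
    (hG : MeasurableSet Gs) {q δ : ℝ} (hδ : 0 ≤ δ) (hq : ∀ e, P.real {ω | ¬ τ e ω ∈ Gs} ≤ q)
    (h0 : 3 ^ d * d * q ≤ δ / 361 ^ d) (k : ℕ) :
    ∀ x, P.real {ω | NW (fun e => τ e ω ∈ Gs) (10 ^ k) x} ≤ δ ^ 2 ^ k / 361 ^ d := by
  induction k with
  | zero =>
    intro x
    rw [pow_zero, pow_zero, pow_one]
    refine le_trans ?_ h0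
    have h1 : {ω | NW (fun e => τ e ω ∈ Gs) 1 x} ⊆ ⋃ e ∈ shl x 0 1, {ω | ¬ τ e ω ∈ Gs} := by
      intro ω hω
      obtain ⟨e, he, hs⟩ := NW_zero hd hω
      simp only [Set.mem_iUnion]
      exact ⟨e, he, hs⟩
    refine (measureReal_mono h1 (measure_ne_top _ _)).trans ?_
    refine (measureReal_biUnion_finset_le _ _).trans ?_
    refine (sum_le_sum fun e _ => hq e).trans ?_
    rw [sum_const, nsmul_eq_mul]
    have h2 : (shl x 0 1).card = 3 ^ d * d := by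
      unfold shl
      rw [card_product, card_univ, Fintype.card_fin, filter_true_of_mem fun z _ => Nat.zero_le _,
        card_bal]
    rw [h2]
    push_cast
    exact le_rfl
  | succ k ih =>
    intro x
    have hr : 1 ≤ 10 ^ k := Nat.one_le_pow _ _ (by norm_num)
    have hMs : ∀ j, j ≤ 9 → P.real {ω | Ms (fun e => τ e ω ∈ Gs) (10 ^ k) x j} ≤
        δ ^ 2 ^ k / 19 ^ d := by
      intro j hj
      have h1 : {ω | Ms (fun e => τ e ω ∈ Gs) (10 ^ k) x j} ⊆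
          ⋃ u ∈ bal (0 : Fin d → ℤ) 9, {ω | NW (fun e => τ e ω ∈ Gs) (10 ^ k) (pt x (10 ^ k) u)} := by
        rintro ω ⟨u, hu, hs⟩
        simp only [Set.mem_iUnion]
        exact ⟨u, mem_bal.2 (by omega), hs⟩
      refine (measureReal_mono h1 (measure_ne_top _ _)).trans ?_
      refine (measureReal_biUnion_finset_le _ _).trans ?_
      refine (sum_le_sum fun u _ => ih _).trans ?_
      rw [sum_const, nsmul_eq_mul, card_bal]
      push_cast
      have e : (361 : ℝ) ^ d = 19 ^ d * 19 ^ d := by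
        rw [← mul_pow]
        norm_num
      rw [e]
      have h19 : (0 : ℝ) < 19 ^ d := by positivity
      apply le_of_eq
      norm_num
      field_simp
    have hdisj : Disjoint (shl x (2 * 10 ^ k * 6 - 2 * 10 ^ k) (2 * 10 ^ k * 6 + 2 * 10 ^ k))
        (shl x (2 * 10 ^ k * 9 - 2 * 10 ^ k) (2 * 10 ^ k * 9 + 2 * 10 ^ k)) := by
      rw [Finset.disjoint_left]
      intro e he he'
      rw [mem_shl] at he he'
      omega
    have h2 := indep_of_dep (P := P) hτ hi hG hdisj (fun σ σ' h => Ms_congr (x := x) h)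
      (fun σ σ' h => Ms_congr (x := x) h)
    have h3 : {ω | NW (fun e => τ e ω ∈ Gs) (10 ^ (k + 1)) x} ⊆
        {ω | Ms (fun e => τ e ω ∈ Gs) (10 ^ k) x 6 ∧ Ms (fun e => τ e ω ∈ Gs) (10 ^ k) x 9} := by
      intro ω hω
      refine NW_succ hd hr ?_
      have : 10 * 10 ^ k = 10 ^ (k + 1) := by ring
      rw [this]
      exact hω
    refine (measureReal_mono h3 (measure_ne_top _ _)).trans ?_
    rw [h2]
    refine (mul_le_mul (hMs 6 (by norm_num)) (hMs 9 le_rfl) measureReal_nonneg (by positivity)).trans ?_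
    apply le_of_eq
    have e : (361 : ℝ) ^ d = 19 ^ d * 19 ^ d := by
      rw [← mul_pow]
      norm_num
    rw [e, pow_succ 2 k, pow_mul]
    field_simp

end prob

end Pool.Agent.W_1b8d5d_wall
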